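import Pool.Agent.TCW.Grp
import Pool.Agent.TCG.Base

/-!
# Triples `(x, y, z)` with `z` commuting with `b = x⁻¹ y x`

`K` is a conjugacy-closed set of involutions such that every product of two of its elements has order dividing
`4` or `6`.  A triple `(x, y, z)` (`Tp`) is the situation which is shown to be impossible.
-/

set_option autoImplicit false

namespace TCH

open TCW

variable {G : Type*} [Group G]

/-- the class of involutions -/
structure Cx (K : Set G) : Prop where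
  e12 : ∀ g : G, g ^ 12 = 1
  cj : ∀ (g : G) {k : G}, k ∈ K → g⁻¹ * k * g ∈ K
  sq : ∀ {k : G}, k ∈ K → k * k = 1
  h6 : ∀ {u v : G}, u ∈ K → v ∈ K → (u * v) ^ 4 = 1 ∨ (u * v) ^ 6 = 1

/-- a triple -/
structure Tp (K : Set G) (x y z : G) : Prop where
  hx : x ^ 3 = 1
  hxy : (x * y) ^ 3 = 1
  hy : y ∈ K
  hz : z ∈ K
  hyz : (y * z) ^ 3 = 1
  hbz : (x⁻¹ * y * x) * z = z * (x⁻¹ * y * x)
  ne : y ≠ z

/-- `b` -/
def lb (x y : G) : G := x⁻¹ * y * x
/-- `D = z ^ x` -/
def lD (x z : G) : G := x⁻¹ * z * x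
/-- `e` -/
def le (x y z : G) : G := lb x y * z * lD x z * z * lD x z * z * lD x z
/-- `g` -/
def lg (x y z : G) : G := y * z * lD x z * y * z * lD x z * y * z * lD x z
/-- `n` -/
def ln (x y z : G) : G := z * y * le x y z * y * z

/-- the letters: `x x⁻¹ y b z D u e m v f g w n p q` -/
def el (x y z : G) : ℕ → G
  | 0 => x
  | 1 => x⁻¹
  | 2 => y
  | 3 => lb x y
  | 4 => z
  | 5 => lD x z
  | 6 => x * z * x⁻¹
  | 7 => le x y z
  | 8 => x⁻¹ * le x y z * x
  | 9 => x * le x y z * x⁻¹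
  | 10 => x * lg x y z * x⁻¹
  | 11 => lg x y z
  | 12 => x⁻¹ * lg x y z * x
  | 13 => ln x y z
  | 14 => x⁻¹ * ln x y z * x
  | 15 => x * ln x y z * x⁻¹
  | _ => 1

/-! ### words and powers -/

lemma evw_nil (ev : ℕ → G) : evw ev [] = 1 := rfl
lemma evw_cons (ev : ℕ → G) (a : ℕ) (L : List ℕ) : evw ev (a :: L) = ev a * evw ev L := rfl

lemma evw_flatMap {ev ev' : ℕ → G} {σ : ℕ → List ℕ} (h : ∀ a, evw ev (σ a) = ev' a) (L : List ℕ) :
    evw ev (L.flatMap σ) = evw ev' L := by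
  induction L with
  | nil => rfl
  | cons a L ih => rw [List.flatMap_cons, evw_append, ih, h, evw_cons]

lemma evw_congr_cj {ev ev' : ℕ → G} {t : G} (h : ∀ a, ev' a = t⁻¹ * ev a * t) (L : List ℕ) :
    evw ev' L = t⁻¹ * evw ev L * t := by
  induction L with
  | nil => simp [evw]
  | cons a L ih => rw [evw_cons, evw_cons, ih, h]; group

lemma pow_cj {a t : G} {o : ℕ} (h : a ^ o = 1) : (t⁻¹ * a * t) ^ o = 1 := by
  have e : t⁻¹ * a * t = t⁻¹ * a * (t⁻¹)⁻¹ := by rw [inv_inv]
  rw [e, conj_pow, h]; group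

lemma pow_cj' {a t : G} {o : ℕ} (h : a ^ o = 1) : (t * a * t⁻¹) ^ o = 1 := by
  rw [conj_pow, h]; group

/-! ### normal forms of words -/

/-- class of a letter: which elements of `V` commute with it -/
def cls (a : ℕ) : ℕ := [0, 0, 0, 0, 2, 3, 1, 2, 3, 1, 2, 3, 1, 4, 4, 4].getD a 0

/-- representative of an element of `V` modulo the part commuting with the letter -/
def rp (c v : ℕ) : ℕ :=
  ([[0, 1, 2, 3], [0, 0, 2, 2], [0, 1, 0, 1], [0, 1, 1, 0], [0, 0, 0, 0]].getD c []).getD v 0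

/-- the product in `V = {0, 1, 2, 3}` -/
def vm (u v : ℕ) : ℕ :=
  ([[0, 1, 2, 3], [1, 0, 3, 2], [2, 3, 0, 1], [3, 2, 1, 0]].getD u []).getD v 0

/-- push a letter which is not in `V` -/
def nfPush (a : ℕ) (st : List ℕ) (v : ℕ) : List ℕ × ℕ :=
  match rp (cls a) v, st with
  | 0, s :: st' => if s / 4 = a ∧ 4 ≤ a then (st', vm (s % 4) v) else ((4 * a) :: s :: st', v)
  | 0, [] => ([4 * a], v)
  | v' + 1, st => ((4 * a + (v' + 1)) :: st, vm (v' + 1) v)

/-- one letter -/
def nfStep (st : List ℕ × ℕ) (a : ℕ) : List ℕ × ℕ :=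
  if a = 2 then (st.1, vm st.2 1) else if a = 3 then (st.1, vm st.2 2) else nfPush a st.1 st.2

/-- the normal form -/
def nf (L : List ℕ) : List ℕ × ℕ := L.foldl nfStep ([], 0)

/-- the elements of `V` -/
def vv (ev : ℕ → G) : ℕ → G
  | 0 => 1
  | 1 => ev 2
  | 2 => ev 3
  | 3 => ev 2 * ev 3
  | _ => 1

/-- value of a stack -/
def vs (ev : ℕ → G) : List ℕ → G
  | [] => 1
  | s :: st => vs ev st * (vv ev (s % 4) * ev (s / 4))

/-- the structural relations used by the normal form -/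
structure St (ev : ℕ → G) : Prop where
  yy : ev 2 * ev 2 = 1
  bb : ev 3 * ev 3 = 1
  yb : ev 2 * ev 3 = ev 3 * ev 2
  sq : ∀ a, 4 ≤ a → ev a * ev a = 1
  cm : ∀ a v, v < 4 → rp (cls a) v = 0 → vv ev v * ev a = ev a * vv ev v

lemma vv_mul {ev : ℕ → G} (h : St ev) {u v : ℕ} (hu : u < 4) (hv : v < 4) :
    vv ev u * vv ev v = vv ev (vm u v) := by
  have h1 : ev 2 * (ev 2 * ev 3) = ev 3 := by rw [← mul_assoc, h.yy, one_mul]
  have h2 : ev 3 * (ev 2 * ev 3) = ev 2 := by rw [h.yb, ← mul_assoc, h.bb, one_mul]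
  have h3 : ev 2 * ev 3 * ev 2 = ev 3 := by rw [h.yb, mul_assoc, h.yy, mul_one]
  have h4 : ev 2 * ev 3 * ev 3 = ev 2 := by rw [mul_assoc, h.bb, mul_one]
  have h5 : ev 2 * ev 3 * (ev 2 * ev 3) = 1 := by rw [mul_assoc, h2, h.yy]
  interval_cases u <;> interval_cases v <;>
    simp [vv, vm, h.yy, h.bb, h1, h2, h3, h4, h5, ← h.yb]

lemma cls_lt (a : ℕ) : cls a < 5 := by
  rcases Nat.lt_or_ge a 16 with h | h
  · interval_cases a <;> decide
  · rw [cls, List.getD_eq_default _ _ (by simpa using h)]; norm_num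

lemma rp_spec {c v : ℕ} (hc : c < 5) (hv : v < 4) :
    rp c v < 4 ∧ vm (rp c v) v < 4 ∧ rp c (vm (rp c v) v) = 0 ∧ vm (rp c v) (vm (rp c v) v) = v := by
  interval_cases c <;> interval_cases v <;> decide

lemma vm_lt {u v : ℕ} (hu : u < 4) (hv : v < 4) : vm u v < 4 := by
  interval_cases u <;> interval_cases v <;> decide

/-- value of a state -/
def vst (ev : ℕ → G) (s : List ℕ × ℕ) : G := vs ev s.1 * vv ev s.2

lemma vv_zero (ev : ℕ → G) : vv ev 0 = 1 := rfl

lemma nfPush_val {ev : ℕ → G} (h : St ev) (a : ℕ) (st : List ℕ) {v : ℕ} (hv : v < 4) :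
    vst ev (nfPush a st v) = vs ev st * vv ev v * ev a ∧ (nfPush a st v).2 < 4 := by
  obtain ⟨h1, h2, h3, h4⟩ := rp_spec (cls_lt a) hv
  have hcm := h.cm a _ h2 h3
  unfold nfPush
  rcases hr : rp (cls a) v with _ | r
  · have hc := h.cm a v hv hr
    rcases st with _ | ⟨s, st'⟩
    · refine ⟨?_, hv⟩
      have e1 : 4 * a % 4 = 0 := by omega
      have e2 : 4 * a / 4 = a := by omega
      simp only [vst, vs, e1, e2, vv_zero, one_mul, mul_assoc]
      rw [hc]
    · by_cases hs : s / 4 = a ∧ 4 ≤ a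
      · simp only [hs, and_self, if_true]
        refine ⟨?_, vm_lt (Nat.mod_lt _ (by norm_num)) hv⟩
        simp only [vst, vs, hs.1]
        rw [← vv_mul h (Nat.mod_lt _ (by norm_num)) hv]
        have e := h.sq a hs.2
        calc vs ev st' * (vv ev (s % 4) * vv ev v)
            = vs ev st' * (vv ev (s % 4) * (ev a * ev a) * vv ev v) := by rw [e, mul_one]
          _ = vs ev st' * (vv ev (s % 4) * ev a) * (ev a * vv ev v) := by group
          _ = vs ev st' * (vv ev (s % 4) * ev a) * (vv ev v * ev a) := by rw [hc]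
          _ = _ := by group
      · simp only [hs, if_false]
        refine ⟨?_, hv⟩
        have e1 : 4 * a % 4 = 0 := by omega
        have e2 : 4 * a / 4 = a := by omega
        simp only [vst, vs, e1, e2, vv_zero, one_mul, mul_assoc]
        rw [hc]
  · rw [hr] at h1 h2 h3 h4 hcm
    have e1 : (4 * a + (r + 1)) % 4 = r + 1 := by omega
    have e2 : (4 * a + (r + 1)) / 4 = a := by omega
    refine ⟨?_, h2⟩
    simp only [vst, vs, e1, e2]
    calc vs ev st * (vv ev (r + 1) * ev a) * vv ev (vm (r + 1) v)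
        = vs ev st * vv ev (r + 1) * (ev a * vv ev (vm (r + 1) v)) := by group
      _ = vs ev st * vv ev (r + 1) * (vv ev (vm (r + 1) v) * ev a) := by rw [hcm]
      _ = vs ev st * (vv ev (r + 1) * vv ev (vm (r + 1) v)) * ev a := by group
      _ = _ := by rw [vv_mul h h1 h2, h4]

lemma nfStep_val {ev : ℕ → G} (h : St ev) (a : ℕ) {s : List ℕ × ℕ} (hs : s.2 < 4) :
    vst ev (nfStep s a) = vst ev s * ev a ∧ (nfStep s a).2 < 4 := by
  unfold nfStep
  by_cases h2 : a = 2
  · rw [if_pos h2]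
    refine ⟨?_, vm_lt hs (by norm_num)⟩
    subst h2
    simp only [vst]
    rw [← vv_mul h hs (by norm_num)]
    simp [vv, mul_assoc]
  · rw [if_neg h2]
    by_cases h3 : a = 3
    · rw [if_pos h3]
      refine ⟨?_, vm_lt hs (by norm_num)⟩
      subst h3
      simp only [vst]
      rw [← vv_mul h hs (by norm_num)]
      simp [vv, mul_assoc]
    · rw [if_neg h3]
      exact nfPush_val h a s.1 hs

lemma foldl_val {ev : ℕ → G} (h : St ev) (L : List ℕ) : ∀ s : List ℕ × ℕ, s.2 < 4 →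
    vst ev (L.foldl nfStep s) = vst ev s * evw ev L := by
  induction L with
  | nil => intro s _; simp [evw]
  | cons a L ih =>
    intro s hs
    obtain ⟨h1, h2⟩ := nfStep_val h a hs
    rw [List.foldl_cons, ih _ h2, h1, evw_cons, mul_assoc]

lemma nf_val {ev : ℕ → G} (h : St ev) (L : List ℕ) : vst ev (nf L) = evw ev L := by
  rw [nf, foldl_val h L _ (by norm_num)]
  simp [vst, vs, vv]

/-- two words are seen to be equal -/
def same (u v : List ℕ) : Bool := (u == v) || (nf u == nf v)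

lemma same_spec {ev : ℕ → G} (h : St ev) {u v : List ℕ} (hs : same u v = true) : evw ev u = evw ev v := by
  rw [same, Bool.or_eq_true] at hs
  rcases hs with hs | hs
  · rw [eq_of_beq hs]
  · rw [← nf_val h u, ← nf_val h v, eq_of_beq hs]

end TCH
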