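import Pool.Agent.TCH.KMem

/-!
# The list of relations known for all triples
-/

set_option autoImplicit false

namespace TCH

open TCW Tp

variable {G : Type*} [Group G] {K : Set G} {x y z : G}

/-- relations of `⟨y, b, z, D⟩` with exponents -/
def gE : List (List ℕ × ℕ) := [([2, 2], 1), ([3, 3], 1), ([4, 4], 1), ([5, 5], 1), ([7, 7], 1), ([11, 11], 1), ([5, 2, 3, 5, 2, 3], 1), ([4, 3, 4, 3], 1), ([5, 11, 5, 11], 1), ([4, 7, 4, 7], 1), ([3, 7, 3, 7], 1), ([2, 3, 2, 7, 2, 3, 2, 7], 1), ([2, 3, 11, 2, 3, 11], 1), ([2, 3, 11, 2, 3, 11], 1), ([5, 3, 5, 3, 5, 3], 1), ([4, 3, 2, 3, 4, 3, 2, 3, 4, 3, 2, 3], 1), ([4, 2, 4, 2, 4, 2], 1), ([5, 3, 5, 7, 5, 7], 1), ([5, 2, 3, 2, 5, 7, 5, 7], 1), ([5, 3, 5, 2, 5, 2], 1), ([4, 3, 2, 3, 4, 2, 3, 4, 2, 3], 1), ([4, 2, 4, 2,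 3, 4, 2, 3], 1), ([5, 3, 7, 5, 3, 7], 1), ([5, 2, 3, 2, 7, 5, 2, 3, 2, 7], 1), ([5, 3, 7, 5, 7, 3], 1), ([5, 2, 3, 2, 7, 5, 7, 2, 3, 2], 1), ([4, 2, 11, 2, 4, 11], 1), ([4, 3, 2, 3, 11, 3, 2, 3, 4, 11], 1), ([5, 2, 3, 5, 11, 2, 3, 11], 1), ([5, 2, 3, 5, 11, 2, 3, 11], 1), ([4, 2, 3, 2, 4, 7, 2, 3, 2, 7], 1), ([4, 3, 4, 7, 3, 7], 1), ([4, 2, 3, 2, 11, 4, 2, 3, 2, 11], 1), ([4, 3, 11, 4, 3, 11], 1), ([4, 2, 3, 2, 11, 2, 3, 2, 4, 11], 1), ([4, 3, 11, 3, 4, 11], 1), ([5, 7, 2, 5, 2, 7], 1), ([5, 7, 3, 2, 3, 5, 3, 2, 3, 7], 1), ([4, 11, 4, 11, 2, 3, 2, 11], 1), ([4, 11, 4, 11, 3, 11], 1), ([3, 11, 2, 11, 2, 11], 1), ([2, 3, 2, 11, 2, 11, 2, 11], 1), ([3, 11, 3, 2, 3, 11, 3, 2, 3, 11], 1), ([2, 7, 2, 7, 2, 7], 1), ([3, 2, 3, 7, 3, 2, 3, 7, 3, 2, 3, 7], 1), ([2, 7, 2,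 3, 7, 2, 3, 7], 1), ([3, 2, 3, 7, 2, 3, 7, 2, 3, 7], 1), ([2, 7, 2, 3, 7, 2, 3, 7], 1), ([5, 3, 7, 2, 3, 5, 2, 7], 1), ([5, 2, 3, 2, 7, 2, 3, 5, 2, 7], 1), ([5, 3, 7, 2, 3, 5, 3, 2, 3, 7], 1), ([4, 2, 5, 2, 3, 5, 4, 2, 3, 2], 1), ([4, 3, 2, 3, 5, 2, 3, 5, 4, 3], 1), ([4, 2, 5, 2, 3, 5, 4, 3], 1), ([4, 2, 11, 2, 3, 4, 2, 3, 2, 11], 1), ([4, 3, 2, 3, 11, 2, 3, 4, 3, 11], 1), ([4, 2, 11, 2, 3, 4, 3, 11], 1), ([4, 2, 11, 2, 3, 11, 4, 2, 3, 2], 1), ([4, 3, 2, 3, 11, 2, 3, 11, 4, 3], 1), ([4, 2, 11, 2, 3, 11, 4, 3], 1), ([5, 2, 3, 7, 5, 7, 5, 2], 1), ([5, 2, 3, 7, 5, 7, 5, 2], 1), ([5, 2, 3, 7, 5, 7, 5, 3, 2, 3], 1), ([4, 11, 4, 11, 2, 11, 2, 3], 1), ([4, 11, 4, 11, 3, 2, 3, 11, 2, 3], 1), ([4, 11, 4, 11, 2, 11, 2, 3], 1), ([3, 7, 11, 2, 3, 11, 2, 7], 1), ([2, 3, 2,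 7, 11, 2, 3, 11, 2, 7], 1), ([3, 7, 11, 2, 3, 11, 3, 2, 3, 7], 1), ([5, 3, 5, 3, 5, 4, 3, 4], 1), ([5, 2, 3, 2, 5, 2, 3, 2, 5, 4, 2, 3, 2, 4], 1), ([5, 3, 5, 3, 11, 5, 11, 3], 1), ([5, 2, 3, 2, 5, 2, 3, 2, 11, 5, 11, 2, 3, 2], 1), ([4, 2, 4, 2, 7, 4, 7, 2], 1), ([4, 3, 2, 3, 4, 3, 2, 3, 7, 4, 7, 3, 2, 3], 1), ([4, 2, 4, 2, 11, 4, 2, 11], 1), ([4, 3, 2, 3, 4, 3, 2, 3, 11, 4, 3, 2, 3, 11], 1), ([5, 3, 5, 7, 11, 5, 11, 7], 1), ([5, 2, 3, 2, 5, 7, 11, 5, 11, 7], 1), ([4, 2, 4, 5, 2, 3, 5, 4, 2, 3], 1), ([4, 3, 2, 3, 4, 5, 2, 3, 5, 4, 2, 3], 1), ([4, 2, 4, 5, 2, 3, 5, 4, 2, 3], 1), ([5, 3, 5, 2, 11, 5, 11, 2], 1), ([5, 2, 3, 2, 5, 2, 11, 5, 11, 2], 1), ([5, 3, 5, 3, 2, 3, 11, 5, 11, 3, 2, 3], 1), ([4, 2, 4, 2, 3, 7, 4, 7, 2, 3], 1), ([4, 3, 2, 3, 4, 2, 3, 7, 4, 7,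 2, 3], 1), ([4, 2, 4, 2, 3, 7, 4, 7, 2, 3], 1), ([5, 3, 7, 5, 7, 4, 3, 4], 1), ([5, 2, 3, 2, 7, 5, 7, 4, 2, 3, 2, 4], 1), ([5, 3, 7, 5, 4, 3, 7, 4], 1), ([5, 2, 3, 2, 7, 5, 4, 2, 3, 2, 7, 4], 1), ([5, 3, 7, 5, 4, 3, 4, 7], 1), ([5, 2, 3, 2, 7, 5, 4, 2, 3, 2, 4, 7], 1), ([5, 3, 7, 5, 4, 7, 4, 3], 1), ([5, 2, 3, 2, 7, 5, 4, 7, 4, 2, 3, 2], 1), ([5, 3, 7, 4, 5, 4, 5, 4], 1), ([5, 2, 3, 2, 7, 4, 5, 4, 5, 4], 1), ([5, 3, 11, 5, 11, 7, 5, 7], 1), ([5, 2, 3, 2, 11, 5, 11, 7, 5, 7], 1), ([5, 3, 11, 5, 11, 2, 5, 2], 1), ([5, 2, 3, 2, 11, 5, 11, 2, 5, 2], 1), ([5, 3, 11, 5, 11, 3, 2, 3, 5, 3, 2, 3], 1), ([5, 3, 11, 2, 11, 2, 5, 11], 1), ([5, 2, 3, 2, 11, 2, 11, 2, 5, 11], 1), ([5, 3, 11, 3, 2, 3, 11, 3, 2, 3, 5, 11], 1), ([4, 2, 7, 4, 7, 2, 3, 4, 2, 3], 1), ([4, 3, 2, 3,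 7, 4, 7, 2, 3, 4, 2, 3], 1), ([4, 2, 7, 4, 7, 2, 3, 4, 2, 3], 1), ([4, 2, 7, 2, 7, 2, 4, 7], 1), ([4, 3, 2, 3, 7, 3, 2, 3, 7, 3, 2, 3, 4, 7], 1), ([4, 2, 5, 2, 7, 5, 4, 7], 1), ([4, 3, 2, 3, 5, 3, 2, 3, 7, 5, 4, 7], 1), ([4, 2, 11, 4, 2, 3, 4, 11, 2, 3], 1), ([4, 3, 2, 3, 11, 4, 2, 3, 4, 11, 2, 3], 1), ([4, 2, 11, 4, 2, 3, 4, 11, 2, 3], 1), ([4, 2, 11, 2, 7, 4, 7, 11], 1), ([4, 3, 2, 3, 11, 3, 2, 3, 7, 4, 7, 11], 1), ([5, 3, 4, 7, 5, 4, 5, 4], 1), ([5, 2, 3, 2, 4, 7, 5, 4, 5, 4], 1), ([4, 2, 3, 2, 4, 5, 2, 5, 2, 5], 1), ([4, 3, 4, 5, 3, 2, 3, 5, 3, 2, 3, 5], 1), ([4, 3, 4, 5, 2, 5, 2, 5], 1), ([4, 2, 3, 2, 4, 5, 7, 5, 7, 5], 1), ([4, 3, 4, 5, 7, 5, 7, 5], 1), ([5, 2, 3, 7, 2, 5, 7, 2, 3, 7], 1), ([5, 2, 3, 7, 2, 5, 7, 2, 3, 7], 1), ([5, 2, 3, 7, 3, 2, 3, 5, 7,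 2, 3, 7], 1), ([4, 2, 3, 2, 7, 5, 4, 5, 4, 5], 1), ([4, 3, 7, 5, 4, 5, 4, 5], 1), ([4, 2, 3, 2, 7, 11, 4, 2, 3, 2, 11, 7], 1), ([4, 3, 7, 11, 4, 3, 11, 7], 1), ([4, 2, 3, 2, 7, 11, 2, 3, 2, 4, 11, 7], 1), ([4, 3, 7, 11, 3, 4, 11, 7], 1), ([4, 2, 3, 2, 7, 11, 7, 11, 7, 11], 1), ([4, 3, 7, 11, 7, 11, 7, 11], 1), ([4, 2, 3, 2, 11, 4, 7, 2, 3, 2, 7, 11], 1), ([4, 3, 11, 4, 7, 3, 7, 11], 1), ([4, 2, 3, 2, 11, 2, 3, 2, 7, 4, 7, 11], 1), ([4, 3, 11, 3, 7, 4, 7, 11], 1), ([4, 2, 3, 2, 11, 7, 11, 7, 11, 7], 1), ([4, 3, 11, 7, 11, 7, 11, 7], 1), ([5, 7, 3, 11, 5, 11, 3, 7], 1), ([5, 7, 2, 3, 2, 11, 5, 11, 2, 3, 2, 7], 1), ([5, 7, 2, 5, 7, 2, 7, 2], 1), ([5, 7, 3, 2, 3, 5, 7, 3, 2, 3, 7, 3, 2, 3], 1), ([5, 7, 2, 11, 5, 11, 2, 7], 1), ([5, 7, 3, 2, 3, 11, 5, 11, 3, 2, 3,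 7], 1), ([5, 7, 4, 5, 11, 7, 4, 11], 1), ([5, 7, 4, 5, 11, 4, 7, 11], 1), ([5, 7, 4, 11, 5, 4, 7, 11], 1), ([5, 11, 5, 4, 11, 3, 11, 4], 1), ([5, 11, 5, 4, 11, 2, 3, 2, 11, 4], 1), ([5, 11, 7, 2, 5, 2, 7, 11], 1), ([5, 11, 7, 3, 2, 3, 5, 3, 2, 3, 7, 11], 1), ([4, 7, 4, 2, 3, 7, 2, 7, 2, 3], 1), ([4, 7, 4, 2, 3, 7, 3, 2, 3, 7, 2, 3], 1), ([4, 7, 4, 2, 3, 7, 2, 7, 2, 3], 1), ([4, 7, 2, 3, 2, 11, 7, 11, 7, 11], 1), ([4, 7, 3, 11, 7, 11, 7, 11], 1), ([4, 5, 4, 2, 3, 7, 11, 7, 2, 3], 1), ([4, 5, 4, 2, 3, 7, 11, 7, 2, 3], 1), ([4, 11, 4, 11, 7, 2, 3, 2, 7, 11], 1), ([4, 11, 4, 11, 7, 3, 7, 11], 1), ([3, 7, 11, 3, 11, 3, 11, 7], 1), ([2, 3, 2, 7, 11, 2, 3, 2, 11, 2, 3, 2, 11, 7], 1), ([3, 7, 11, 2, 11, 2, 11, 7], 1), ([2, 3, 2, 7, 11, 2, 11, 2, 11, 7], 1), ([3, 7, 11,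 3, 2, 3, 11, 3, 2, 3, 11, 7], 1), ([2, 3, 11, 7, 2, 3, 7, 3, 2, 3, 7, 11], 1), ([2, 3, 11, 7, 2, 3, 7, 2, 7, 11], 1), ([2, 3, 11, 7, 2, 3, 7, 2, 7, 11], 1), ([4, 5], 6), ([4, 5, 2, 3], 6), ([4, 5, 2, 3], 6), ([4, 3, 5], 4), ([4, 2, 3, 2, 5], 4), ([4, 3, 5, 2, 3], 6), ([4, 2, 3, 2, 5, 2, 3], 6), ([4, 3, 5, 2, 3], 6), ([5], 2), ([4], 2), ([2, 3], 2), ([3], 2), ([2], 2), ([7], 2), ([11], 2), ([5, 3], 3), ([4, 3, 2, 3], 3), ([4, 2], 3), ([5, 2, 3], 2), ([4, 3], 2), ([5, 7], 6), ([5, 11], 2), ([4, 7], 2), ([4, 11], 6), ([4, 2, 3], 6), ([5, 2], 6), ([4, 2, 3], 6), ([7, 3], 2), ([7, 2, 3, 2], 2), ([7, 2, 3], 6), ([7, 2, 3], 6), ([7, 11], 6), ([7, 3, 2, 3], 3), ([7, 2], 3), ([11, 2, 3], 2), ([11, 2, 3], 2), ([11, 2], 6), ([11, 3, 2, 3], 6), ([11, 2, 3, 2], 3), ([11, 3],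 3), ([5, 2, 3, 2, 7], 2), ([5, 3, 7], 2), ([4, 2, 5], 6), ([4, 3, 2, 3, 5], 6), ([4, 2, 11], 6), ([4, 3, 2, 3, 11], 6), ([5, 3, 4], 4), ([5, 2, 3, 2, 4], 4), ([5, 2, 3, 7], 3), ([5, 2, 3, 7], 3), ([5, 2, 3, 11], 2), ([5, 2, 3, 11], 2), ([4, 2, 3, 2, 7], 2), ([4, 3, 7], 2), ([4, 3, 11], 2), ([4, 2, 3, 2, 11], 2), ([5, 2, 3, 4], 6), ([5, 2, 3, 4], 6), ([5, 7, 2], 6), ([5, 7, 3, 2, 3], 6), ([4, 11, 2, 3], 3), ([4, 11, 2, 3], 3), ([7, 3, 11], 4), ([7, 2, 3, 2, 11], 4), ([7, 2, 3, 11], 6), ([7, 2, 3, 11], 6), ([5, 2, 4], 6), ([5, 3, 2, 3, 4], 6), ([7, 11, 2], 6), ([7, 11, 3, 2, 3], 6), ([4, 3, 2, 3, 4, 3, 2, 3], 3), ([5, 3, 5, 3], 3), ([4, 2, 4, 2], 3), ([5, 3, 5, 7], 6), ([5, 2, 3, 2, 5, 7], 6), ([5, 3, 5, 11], 3), ([5, 2, 3, 2, 5, 11], 3), ([4, 2, 4, 7], 3), ([4,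 3, 2, 3, 4, 7], 3), ([4, 2, 4, 5], 6), ([4, 3, 2, 3, 4, 5], 6), ([4, 2, 4, 11], 6), ([4, 3, 2, 3, 4, 11], 6), ([4, 3, 2, 3, 4, 2, 3], 6), ([5, 3, 5, 2], 6), ([4, 2, 4, 2, 3], 6), ([5, 3, 5, 4], 6), ([5, 2, 3, 2, 5, 4], 6), ([5, 2, 3, 2, 11, 2, 3, 2], 3), ([5, 3, 11, 3], 3), ([5, 3, 11, 2], 6), ([5, 3, 11, 3, 2, 3], 6), ([5, 2, 3, 2, 11, 2], 6), ([4, 3, 2, 3, 7, 3, 2, 3], 3), ([4, 2, 7, 2], 3), ([4, 2, 7, 2, 3], 6), ([4, 3, 2, 3, 7, 2, 3], 6), ([4, 2, 7, 2, 3], 6), ([5, 7, 5, 7], 3), ([5, 7, 5, 11], 6), ([5, 7, 5, 2], 3), ([5, 7, 5, 3, 2, 3], 3), ([5, 7, 5, 4], 3), ([5, 7, 2, 3, 7], 2), ([5, 7, 2, 3, 7], 2), ([5, 7, 11, 7], 3), ([5, 7, 2, 7], 6), ([5, 7, 3, 2, 3, 7], 6), ([5, 7, 4, 7], 6), ([5, 11, 5, 2], 6), ([5, 11, 5, 3, 2, 3], 6), ([5, 11, 5, 4], 6), ([5, 11,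 3, 11], 3), ([5, 11, 2, 3, 2, 11], 3), ([5, 11, 7, 11], 6), ([5, 11, 3, 2, 3, 11], 6), ([5, 11, 2, 11], 6), ([5, 11, 4, 11], 6), ([4, 7, 4, 5], 6), ([4, 7, 4, 11], 6), ([4, 7, 4, 2, 3], 6), ([4, 7, 4, 2, 3], 6), ([4, 7, 2, 7], 3), ([4, 7, 3, 2, 3, 7], 3), ([4, 7, 11, 7], 6), ([4, 7, 2, 3, 7], 6), ([4, 7, 2, 3, 7], 6), ([4, 5, 4, 5], 3), ([4, 5, 4, 11], 3), ([4, 5, 4, 2, 3], 4), ([4, 5, 4, 2, 3], 4), ([4, 5, 2, 5], 6), ([4, 5, 3, 2, 3, 5], 6), ([4, 11, 4, 11], 3), ([4, 11, 4, 2, 3], 2), ([4, 11, 4, 2, 3], 2), ([4, 11, 2, 11], 3), ([4, 11, 3, 2, 3, 11], 3), ([4, 11, 2, 3, 2, 11], 6), ([4, 11, 3, 11], 6), ([4, 11, 7, 11], 3), ([7, 2, 3, 7, 2, 3], 3), ([7, 2, 3, 7, 2, 3], 3), ([7, 2, 3, 7, 11], 4), ([7, 2, 3, 7, 11], 4), ([4, 2, 3, 4, 5], 4), ([4, 2, 3, 4, 5], 4),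 ([5, 2, 5, 4], 6), ([5, 3, 2, 3, 5, 4], 6), ([7, 2, 3, 7, 3, 2, 3], 6), ([7, 2, 3, 7, 2], 6), ([7, 2, 3, 7, 2], 6), ([7, 11, 3, 11], 6), ([7, 11, 2, 3, 2, 11], 6), ([7, 11, 7, 11], 3), ([7, 11, 7, 2], 6), ([7, 11, 7, 3, 2, 3], 6), ([7, 11, 3, 2, 3, 11], 6), ([7, 11, 2, 11], 6), ([4, 5, 3, 5], 6), ([4, 5, 2, 3, 2, 5], 6), ([4, 5, 4, 2], 6), ([4, 5, 4, 3, 2, 3], 6), ([11, 2, 11, 2], 3), ([11, 3, 2, 3, 11, 3, 2, 3], 3), ([11, 2, 11, 2, 3, 2], 6), ([11, 3, 2, 3, 11, 3], 6), ([11, 2, 11, 3], 6), ([5, 3, 5, 3, 7], 2), ([5, 2, 3, 2, 5, 2, 3, 2, 7], 2), ([4, 3, 2, 3, 4, 3, 2, 3, 5], 6), ([4, 2, 4, 2, 5], 6), ([4, 2, 4, 2, 11], 6), ([4, 3, 2, 3, 4, 3, 2, 3, 11], 6), ([5, 2, 3, 2, 5, 2, 3, 2, 4], 4), ([5, 3, 5, 3, 4], 4), ([5, 3, 5, 7, 2], 6), ([5, 2, 3, 2, 5, 7, 2], 6),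 ([5, 3, 5, 7, 3, 2, 3], 6), ([4, 2, 4, 5, 2, 3], 6), ([4, 2, 4, 5, 2, 3], 6), ([4, 3, 2, 3, 4, 5, 2, 3], 6), ([4, 2, 4, 11, 2, 3], 3), ([4, 3, 2, 3, 4, 11, 2, 3], 3), ([4, 2, 4, 11, 2, 3], 3), ([5, 3, 5, 2, 4], 6), ([5, 3, 5, 3, 2, 3, 4], 6), ([5, 2, 3, 2, 5, 2, 4], 6), ([5, 3, 7, 5, 7], 2), ([5, 2, 3, 2, 7, 5, 7], 2), ([5, 3, 7, 5, 11], 4), ([5, 2, 3, 2, 7, 5, 11], 4), ([5, 3, 7, 5, 4], 2), ([5, 2, 3, 2, 7, 5, 4], 2), ([5, 2, 3, 2, 7, 4, 7], 4), ([5, 3, 7, 4, 7], 4), ([4, 2, 5, 4, 7], 6), ([4, 3, 2, 3, 5, 4, 7], 6), ([4, 2, 5, 11, 5], 6), ([4, 3, 2, 3, 5, 11, 5], 6), ([4, 3, 2, 3, 11, 4, 7], 6), ([4, 2, 11, 4, 7], 6), ([4, 2, 11, 2, 11], 2), ([4, 3, 2, 3, 11, 3, 2, 3, 11], 2), ([4, 2, 11, 3, 11], 6), ([4, 2, 11, 2, 3, 2, 11], 6), ([4, 3, 2, 3, 11, 3, 11], 6),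 ([4, 2, 11, 5, 11], 6), ([4, 3, 2, 3, 11, 5, 11], 6), ([5, 2, 3, 2, 4, 5, 7], 4), ([5, 3, 4, 5, 7], 4), ([5, 2, 3, 2, 4, 5, 11], 2), ([5, 3, 4, 5, 11], 2), ([5, 2, 3, 2, 4, 5, 4], 4), ([5, 3, 4, 5, 4], 4), ([5, 3, 4, 7, 4], 2), ([5, 2, 3, 2, 4, 7, 4], 2), ([5, 2, 3, 7, 5, 7], 6), ([5, 2, 3, 7, 5, 7], 6), ([5, 2, 3, 7, 5, 11], 6), ([5, 2, 3, 7, 5, 11], 6), ([5, 2, 3, 7, 2, 3, 7], 6), ([5, 2, 3, 7, 2, 3, 7], 6), ([5, 2, 3, 7, 11, 7], 6), ([5, 2, 3, 7, 11, 7], 6), ([5, 2, 3, 7, 2, 7], 3), ([5, 2, 3, 7, 2, 7], 3), ([5, 2, 3, 7, 3, 2, 3, 7], 3), ([5, 2, 3, 7, 4, 7], 6), ([5, 2, 3, 7, 4, 7], 6), ([5, 2, 3, 11, 5, 11], 2), ([5, 2, 3, 11, 5, 11], 2), ([5, 2, 3, 11, 5, 4], 3), ([5, 2, 3, 11, 5, 4], 3), ([5, 2, 3, 11, 7, 11], 3), ([5, 2, 3, 11, 7, 11], 3), ([5, 2, 3, 11,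 4, 11], 6), ([5, 2, 3, 11, 4, 11], 6), ([4, 2, 3, 2, 7, 4, 7], 2), ([4, 3, 7, 4, 7], 2), ([4, 3, 7, 4, 11], 4), ([4, 2, 3, 2, 7, 4, 11], 4), ([4, 3, 7, 11, 7], 2), ([4, 2, 3, 2, 7, 11, 7], 2), ([4, 3, 11, 4, 11], 2), ([4, 2, 3, 2, 11, 4, 11], 2), ([4, 3, 11, 7, 11], 2), ([4, 2, 3, 2, 11, 7, 11], 2), ([4, 3, 11, 5, 11], 4), ([4, 2, 3, 2, 11, 5, 11], 4), ([5, 2, 3, 4, 5, 4], 6), ([5, 2, 3, 4, 5, 4], 6), ([5, 2, 3, 4, 7, 4], 3), ([5, 2, 3, 4, 7, 4], 3), ([5, 2, 3, 4, 11, 4], 6), ([5, 2, 3, 4, 11, 4], 6), ([5, 7, 2, 3, 11, 7], 6), ([5, 7, 2, 3, 11, 7], 6), ([5, 7, 2, 5, 11], 6), ([5, 7, 3, 2, 3, 5, 11], 6), ([5, 7, 4, 7, 3, 2, 3], 6), ([5, 7, 4, 7, 2], 6), ([5, 11, 3, 7, 11], 2), ([5, 11, 2, 3, 2, 7, 11], 2), ([5, 11, 7, 3, 2, 3, 11], 6), ([5, 11, 7, 2, 11], 6), ([4,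 7, 4, 11, 2, 3], 6), ([4, 7, 4, 11, 2, 3], 6), ([4, 7, 3, 2, 3, 11, 7], 6), ([4, 7, 2, 11, 7], 6), ([4, 7, 11, 2, 3, 7], 3), ([4, 7, 11, 2, 3, 7], 3), ([4, 5, 4, 11, 2, 3], 6), ([4, 5, 4, 11, 2, 3], 6), ([4, 11, 4, 11, 2, 3], 6), ([4, 11, 4, 11, 2, 3], 6), ([4, 11, 3, 7, 11], 4), ([4, 11, 2, 3, 2, 7, 11], 4), ([7, 3, 11, 3, 11], 4), ([7, 2, 3, 2, 11, 2, 3, 2, 11], 4), ([7, 2, 3, 2, 11, 7, 11], 4), ([7, 3, 11, 7, 11], 4), ([7, 3, 11, 2, 11], 6), ([7, 2, 3, 2, 11, 2, 11], 6), ([7, 3, 11, 3, 2, 3, 11], 6), ([4, 2, 3, 2, 5, 2, 3, 2, 5], 4), ([4, 3, 5, 3, 5], 4), ([4, 3, 5, 4, 5], 4), ([4, 2, 3, 2, 5, 4, 5], 4), ([4, 3, 5, 3, 2, 3, 5], 6), ([4, 3, 5, 2, 5], 6), ([4, 2, 3, 2, 5, 2, 5], 6), ([5, 2, 3, 4, 2, 3, 4], 6), ([5, 2, 3, 4, 2, 3, 4], 6), ([5, 2, 3, 4, 2, 4],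 6), ([5, 2, 3, 4, 2, 4], 6), ([5, 2, 3, 4, 3, 2, 3, 4], 6), ([7, 2, 3, 7, 2, 3, 11], 6), ([7, 2, 3, 7, 2, 3, 11], 6), ([7, 2, 3, 7, 11, 2], 6), ([7, 2, 3, 7, 11, 3, 2, 3], 6), ([7, 2, 3, 7, 11, 2], 6), ([7, 2, 3, 11, 7, 11], 6), ([7, 2, 3, 11, 7, 11], 6), ([13, 13], 1), ([13, 4, 2, 7, 2, 4], 1), ([13, 2], 2), ([13, 3], 2), ([13, 2, 3], 2), ([13, 4, 3, 2, 3, 7, 3, 2, 3, 4], 1), ([13, 2, 3], 2), ([13, 2, 3, 2], 2), ([13, 3, 2, 3], 2)]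

/-- aligned comparison with the list of words of the certificate -/
def matchAll : List (List ℕ × ℕ) → List ℕ → Bool
  | [], _ => true
  | p :: ps, c :: cs => (wd 256 c == powL p.2 p.1) && matchAll ps cs
  | _ :: _, [] => false

lemma matchAll_spec {ev : ℕ → G} : ∀ (ps : List (List ℕ × ℕ)) (cs : List ℕ),
    (∀ c ∈ cs, evw ev (wd 256 c) = 1) → matchAll ps cs = true → ∀ p ∈ ps, evw ev p.1 ^ p.2 = 1 := by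
  intro ps
  induction ps with
  | nil => intro cs _ _ p hp; simp at hp
  | cons q ps ih =>
    intro cs hcs h p hp
    rcases cs with _ | ⟨c, cs⟩
    · exact absurd h (by simp [matchAll])
    · rw [matchAll, Bool.and_eq_true] at h
      rcases List.mem_cons.1 hp with rfl | hp
      · rw [← evw_powL, ← eq_of_beq h.1]; exact hcs c (by simp)
      · exact ih cs (fun c' hc' => hcs c' (by simp [hc'])) h.2 p hp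

lemma gE_match : matchAll gE wE2 = true := by decide +kernel

lemma gE_ok (hK : Cx K) (hT : ∀ x y z : G, Tp K x y z → Ty x y z) : ∀ p ∈ gE, Un K p.1 p.2 := by
  intro p hp x y z h
  exact matchAll_spec gE wE2 (h.cE2_ok hK (hT x y z h)) gE_match p hp

/-- relations with `x` -/
def gX : List (List ℕ × ℕ) :=
  [([0, 0, 0], 1), ([1, 2, 0, 3], 1), ([1, 3, 0, 2, 3], 1), ([1, 2, 3, 0, 2], 1), ([1, 4, 0, 5], 1),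
   ([1, 5, 0, 6], 1), ([1, 6, 0, 4], 1), ([1, 7, 0, 8], 1), ([1, 8, 0, 9], 1), ([1, 9, 0, 7], 1),
   ([1, 10, 0, 11], 1), ([1, 11, 0, 12], 1), ([1, 12, 0, 10], 1), ([1, 13, 0, 14], 1),
   ([1, 14, 0, 15], 1), ([1, 15, 0, 13], 1), ([1, 13, 0, 5, 3, 8, 3, 5], 1),
   ([0, 13, 1, 6, 2, 3, 9, 2, 3, 6], 1), ([14, 5, 3, 8, 3, 5], 1), ([15, 6, 2, 3, 9, 2, 3, 6], 1),
   ([0, 4], 12), ([0, 7], 12), ([0, 10], 12), ([0, 3, 4], 12), ([0, 3, 7], 12), ([0, 3, 10], 12),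
   ([0, 2, 4], 12), ([0, 2, 7], 12), ([0, 2, 10], 12)]

lemma xrel (hK : Cx K) (h : Tp K x y z) (t : Ty x y z) (W W' : List ℕ)
    (hs : same (W.flatMap rotL) W' = true) (hq : evw (el x y z) W' * evw (el x y z) W' = 1) :
    evw (el x y z) (1 :: (W ++ (0 :: W'))) = 1 := by
  rw [evw_cons, evw_append, evw_cons]
  have e := h.cx hK t W W' hs
  calc el x y z 1 * (evw (el x y z) W * (el x y z 0 * evw (el x y z) W'))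
      = (x⁻¹ * evw (el x y z) W * x) * evw (el x y z) W' := by simp only [el]; group
    _ = 1 := by rw [e, hq]

lemma sq1 (hK : Cx K) (h : Tp K x y z) (t : Ty x y z) (a : ℕ) (ha : 2 ≤ a) :
    evw (el x y z) [a] * evw (el x y z) [a] = 1 := by
  rw [evw_cons, evw_nil, mul_one]; exact h.el_sq hK t a ha

lemma p_word (x y z : G) : evw (el x y z) [14] = x⁻¹ * evw (el x y z) [4, 2, 7, 2, 4] * x := by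
  simp only [evw, el, ln, mul_one, mul_assoc]

lemma q_word (x y z : G) : evw (el x y z) [15] = x * evw (el x y z) [4, 2, 7, 2, 4] * x⁻¹ := by
  simp only [evw, el, ln, mul_one, mul_assoc]

lemma gX_ok (hK : Cx K) (hT : ∀ x y z : G, Tp K x y z → Ty x y z) : ∀ p ∈ gX, Un K p.1 p.2 := by
  have r1 : ∀ W W' : List ℕ, same (W.flatMap rotL) W' = true →
      (∀ x y z : G, Tp K x y z → evw (el x y z) W' * evw (el x y z) W' = 1) →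
      Un K (1 :: (W ++ (0 :: W'))) 1 := by
    intro W W' hs hq x y z h
    rw [pow_one]; exact xrel hK h (hT x y z h) W W' hs (hq x y z h)
  have s1 : ∀ a : ℕ, 2 ≤ a → ∀ x y z : G, Tp K x y z →
      evw (el x y z) [a] * evw (el x y z) [a] = 1 :=
    fun a ha x y z h => sq1 hK h (hT x y z h) a ha
  have hp : ∀ x y z : G, Tp K x y z → evw (el x y z) [14] = evw (el x y z) [5, 3, 8, 3, 5] := by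
    intro x y z h
    rw [p_word]; exact h.cx hK (hT x y z h) [4, 2, 7, 2, 4] _ (by decide +kernel)
  have hq : ∀ x y z : G, Tp K x y z → evw (el x y z) [15] = evw (el x y z) [6, 2, 3, 9, 2, 3, 6] := by
    intro x y z h
    rw [q_word]; exact (h.cx' hK (hT x y z h) [6, 2, 3, 9, 2, 3, 6] _ (by decide +kernel)).symm
  have e12 : ∀ w : List ℕ, Un K w 12 := fun w x y z _ => hK.e12 _
  simp only [gX, List.forall_mem_cons, List.not_mem_nil, false_imp_iff, implies_true, and_true]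
  refine ⟨?_, r1 [2] [3] (by decide +kernel) (s1 3 (by norm_num)), r1 [3] [2, 3] (by decide +kernel) ?_,
    r1 [2, 3] [2] (by decide +kernel) (s1 2 (by norm_num)),
    r1 [4] [5] (by decide +kernel) (s1 5 (by norm_num)), r1 [5] [6] (by decide +kernel) (s1 6 (by norm_num)),
    r1 [6] [4] (by decide +kernel) (s1 4 (by norm_num)), r1 [7] [8] (by decide +kernel) (s1 8 (by norm_num)),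
    r1 [8] [9] (by decide +kernel) (s1 9 (by norm_num)), r1 [9] [7] (by decide +kernel) (s1 7 (by norm_num)),
    r1 [10] [11] (by decide +kernel) (s1 11 (by norm_num)),
    r1 [11] [12] (by decide +kernel) (s1 12 (by norm_num)),
    r1 [12] [10] (by decide +kernel) (s1 10 (by norm_num)),
    r1 [13] [14] (by decide +kernel) (s1 14 (by norm_num)),
    r1 [14] [15] (by decide +kernel) (s1 15 (by norm_num)),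
    r1 [15] [13] (by decide +kernel) (s1 13 (by norm_num)), ?_, ?_, ?_, ?_,
    e12 _, e12 _, e12 _, e12 _, e12 _, e12 _, e12 _, e12 _, e12 _⟩
  · intro x y z h
    have := h.hx
    rw [pow_three] at this
    rw [pow_one, ← this]; simp only [evw, el, mul_one]
  · intro x y z h
    have := h.cc hK
    rw [← this]; simp only [evw, el, mul_one]
  · intro x y z h
    have e : evw (el x y z) [1, 13, 0, 5, 3, 8, 3, 5] =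
        evw (el x y z) [14] * evw (el x y z) [5, 3, 8, 3, 5] := by
      simp only [evw, el, mul_one, mul_assoc]
    rw [pow_one, e, ← hp x y z h]; exact s1 14 (by norm_num) x y z h
  · intro x y z h
    have e : evw (el x y z) [0, 13, 1, 6, 2, 3, 9, 2, 3, 6] =
        evw (el x y z) [15] * evw (el x y z) [6, 2, 3, 9, 2, 3, 6] := by
      simp only [evw, el, mul_one, mul_assoc]
    rw [pow_one, e, ← hq x y z h]; exact s1 15 (by norm_num) x y z h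
  · intro x y z h
    have e : evw (el x y z) [14, 5, 3, 8, 3, 5] =
        evw (el x y z) [14] * evw (el x y z) [5, 3, 8, 3, 5] := by
      simp only [evw, mul_one, mul_assoc]
    rw [pow_one, e, ← hp x y z h]; exact s1 14 (by norm_num) x y z h
  · intro x y z h
    have e : evw (el x y z) [15, 6, 2, 3, 9, 2, 3, 6] =
        evw (el x y z) [15] * evw (el x y z) [6, 2, 3, 9, 2, 3, 6] := by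
      simp only [evw, mul_one, mul_assoc]
    rw [pow_one, e, ← hq x y z h]; exact s1 15 (by norm_num) x y z h

/-- the basic list -/
def g0 : List (List ℕ × ℕ) := gX ++ gE

lemma g0_ok (hK : Cx K) (hT : ∀ x y z : G, Tp K x y z → Ty x y z) : ∀ p ∈ g0, Un K p.1 p.2 := by
  intro p hp
  rcases List.mem_append.1 hp with hp | hp
  · exact gX_ok hK hT p hp
  · exact gE_ok hK hT p hp

end TCH
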