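import Pool.Agent.TCH.Univ

/-!
# Elements of `K` among the words, products of two of them, and facts
-/

set_option autoImplicit false

namespace TCH

open TCW Tp

variable {G : Type*} [Group G] {K : Set G} {x y z : G}

/-- words whose values are in `K` -/
def kList : List (List ℕ) :=
  [[2], [3], [2, 3], [4], [5], [6], [7], [8], [9], [10], [11], [12], [13], [14], [15],
   [3, 4], [3, 7], [3, 10], [2, 3, 5], [2, 3, 8], [2, 3, 11], [2, 6], [2, 9], [2, 12],
   [2, 3, 13], [2, 14], [3, 15], [3, 13], [2, 3, 14], [2, 15]]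

lemma Cx.cj' (hK : Cx K) (g : G) {k : G} (hk : k ∈ K) : g * k * g⁻¹ ∈ K := by
  have := hK.cj g⁻¹ hk
  rwa [inv_inv] at this

lemma hcn (hK : Cx K) (hT : ∀ x y z : G, Tp K x y z → Ty x y z) (h : Tp K x y z) :
    evw (el x y z) [2, 3, 13] ∈ K := by
  have t := hT x y z h
  have hf : x * lg x y z * x⁻¹ ∈ K := (h.tf hK t).hz
  have hg : lg x y z ∈ K := by
    have := hK.cj x hf
    have e : x⁻¹ * (x * lg x y z * x⁻¹) * x = lg x y z := by group
    rwa [e] at this
  have h1 := h.e2 hK t [5, 3, 11, 3, 5, 13, 2, 3] (by decide +kernel)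
  have h2 := hK.cj' (lD x z * lb x y) hg
  have e : lD x z * lb x y * lg x y z * (lD x z * lb x y)⁻¹ = evw (el x y z) [2, 3, 13] := by
    rw [mul_inv_rev, inv_of_sq (h.bb hK), inv_of_sq (h.DD hK)]
    have h3 : lD x z * lb x y * lg x y z * (lb x y * lD x z) * (ln x y z * (y * lb x y)) = 1 := by
      rw [← h1]; simp only [evw, el, mul_one, mul_assoc]
    have h4 := eq_inv_of_mul_eq_one_left h3
    rw [h4, mul_inv_rev, inv_of_sq (h.cc hK), inv_of_sq (h.nn hK t)]
    simp only [evw, el, mul_one, mul_assoc]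
  rwa [e] at h2

lemma hyq (hK : Cx K) (hT : ∀ x y z : G, Tp K x y z → Ty x y z) (h : Tp K x y z) :
    evw (el x y z) [2, 15] ∈ K := by
  have h1 := hcn hK hT (h.phi hK)
  rw [← evw_flatMap (h.phi_el hK (hT x y z h)), h.eqw hK (hT x y z h) _ [2, 15] (by decide +kernel)] at h1
  exact h1

lemma kmem (hK : Cx K) (hT : ∀ x y z : G, Tp K x y z → Ty x y z) (h : Tp K x y z) :
    ∀ w ∈ kList, evw (el x y z) w ∈ K := by
  have t := hT x y z h
  have hb : lb x y ∈ K := hK.cj x h.hy
  have hc : y * lb x y ∈ K := (h.phi hK).hy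
  have hD : lD x z ∈ K := hK.cj x h.hz
  have he : le x y z ∈ K := (h.te hK t).hz
  have hf : x * lg x y z * x⁻¹ ∈ K := (h.tf hK t).hz
  have hg : lg x y z ∈ K := by
    have := hK.cj x hf
    have e : x⁻¹ * (x * lg x y z * x⁻¹) * x = lg x y z := by group
    rwa [e] at this
  have hn : ln x y z ∈ K := by
    have h1 := hK.cj' (z * y) he
    have e : z * y * le x y z * (z * y)⁻¹ = ln x y z := by
      rw [mul_inv_rev, inv_of_sq (h.yy hK), inv_of_sq (h.zz hK), ln]; group
    rwa [e] at h1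
  have hbz : lb x y * z ∈ K := (h.phi hK).hz
  have hbe : lb x y * le x y z ∈ K := ((h.te hK t).phi hK).hz
  have hbf : lb x y * (x * lg x y z * x⁻¹) ∈ K := ((h.tf hK t).phi hK).hz
  have cjw : ∀ W W' : List ℕ, evw (el x y z) W ∈ K → same (W.flatMap rotL) W' = true →
      evw (el x y z) W' ∈ K := by
    intro W W' hW hs
    rw [← h.cx hK t W W' hs]; exact hK.cj x hW
  have w34 : evw (el x y z) [3, 4] ∈ K := by simpa [evw, el] using hbz
  have w37 : evw (el x y z) [3, 7] ∈ K := by simpa [evw, el] using hbe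
  have w310 : evw (el x y z) [3, 10] ∈ K := by simpa [evw, el] using hbf
  have w235 := cjw [3, 4] [2, 3, 5] w34 (by decide +kernel)
  have w238 := cjw [3, 7] [2, 3, 8] w37 (by decide +kernel)
  have w2311 := cjw [3, 10] [2, 3, 11] w310 (by decide +kernel)
  have w2313 : evw (el x y z) [2, 3, 13] ∈ K := hcn hK hT h
  have w215 : evw (el x y z) [2, 15] ∈ K := hyq hK hT h
  have w313 := cjw [2, 15] [3, 13] w215 (by decide +kernel)
  simp only [kList, List.forall_mem_cons, List.not_mem_nil, false_imp_iff, implies_true, and_true]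
  refine ⟨?_, ?_, ?_, ?_, ?_, ?_, ?_, ?_, ?_, ?_, ?_, ?_, ?_, ?_, ?_, w34, w37, w310, w235, w238,
    w2311, cjw [2, 3, 5] _ w235 (by decide +kernel), cjw [2, 3, 8] _ w238 (by decide +kernel),
    cjw [2, 3, 11] _ w2311 (by decide +kernel), w2313, cjw [2, 3, 13] _ w2313 (by decide +kernel),
    cjw [2, 14] _ (cjw [2, 3, 13] [2, 14] w2313 (by decide +kernel)) (by decide +kernel),
    w313, cjw [3, 13] _ w313 (by decide +kernel), w215⟩ <;>
    simp only [evw, el, mul_one]
  · exact h.hy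
  · exact hb
  · exact hc
  · exact h.hz
  · exact hD
  · exact hK.cj' x h.hz
  · exact he
  · exact hK.cj x he
  · exact hK.cj' x he
  · exact hf
  · exact hg
  · exact hK.cj x hg
  · exact hn
  · exact hK.cj x hn
  · exact hK.cj' x hn

/-- the word is, up to local operations, the product of two elements of `K`:
`(i, j, h, ops)` stands for `k_i (h k_j h⁻¹)` -/
def prodOK (c : ℕ × ℕ × List ℕ × List ℕ) (w : List ℕ) : Bool :=
  (c.2.2.1.all fun a => Nat.ble 2 a) && (c.2.2.2.all fun a => Nat.blt a 5) &&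
  chk c.2.2.2 (kList.getD c.1 [2] ++ (c.2.2.1 ++ (kList.getD c.2.1 [2] ++ c.2.2.1.reverse))) w

lemma kgetD (hK : Cx K) (hT : ∀ x y z : G, Tp K x y z → Ty x y z) (h : Tp K x y z) (i : ℕ) :
    evw (el x y z) (kList.getD i [2]) ∈ K := by
  rcases Nat.lt_or_ge i kList.length with hi | hi
  · rw [List.getD_eq_getElem _ _ hi]; exact kmem hK hT h _ (List.getElem_mem hi)
  · rw [List.getD_eq_default _ _ hi]; exact kmem hK hT h [2] (by simp [kList])

/-- the alternative for a product of two elements of `K` -/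
theorem h6w (hK : Cx K) (hT : ∀ x y z : G, Tp K x y z → Ty x y z)
    {c : ℕ × ℕ × List ℕ × List ℕ} {w : List ℕ} (hc : prodOK c w = true) (h : Tp K x y z) :
    evw (el x y z) w ^ 4 = 1 ∨ evw (el x y z) w ^ 6 = 1 := by
  have t := hT x y z h
  rw [prodOK, Bool.and_eq_true, Bool.and_eq_true] at hc
  obtain ⟨⟨h1, h2⟩, h3⟩ := hc
  have hh : ∀ a ∈ c.2.2.1, el x y z a * el x y z a = 1 := by
    intro a ha
    exact h.el_sq hK t a (Nat.ble_eq.mp (List.all_eq_true.mp h1 a ha))
  have e : evw (el x y z) (kList.getD c.1 [2] ++ (c.2.2.1 ++ (kList.getD c.2.1 [2] ++ c.2.2.1.reverse))) =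
      evw (el x y z) (kList.getD c.1 [2]) *
      (evw (el x y z) c.2.2.1 * evw (el x y z) (kList.getD c.2.1 [2]) * (evw (el x y z) c.2.2.1)⁻¹) := by
    rw [evw_append, evw_append, evw_append, evw_reverse _ hh]; group
  rcases hK.h6 (kgetD hK hT h c.1) (hK.cj' (evw (el x y z) c.2.2.1) (kgetD hK hT h c.2.1)) with h4 | h6
  · left
    exact loc_chk hK h t _ _ _ h2 h3 (by rw [e]; exact h4)
  · right
    exact loc_chk hK h t _ _ _ h2 h3 (by rw [e]; exact h6)

/-- from a certificate for the assumption `w ^ 4 = 1` to the fact `w ^ 6 = 1` -/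
theorem fact6 (hK : Cx K) (hT : ∀ x y z : G, Tp K x y z → Ty x y z)
    {c : ℕ × ℕ × List ℕ × List ℕ} {w : List ℕ} (hc : prodOK c w = true)
    (h : ∀ x y z : G, Tp K x y z → ¬ ∀ p ∈ [(w, 4)], evw (el x y z) p.1 ^ p.2 = 1) : Un K w 6 := by
  intro x y z ht
  rcases h6w hK hT hc ht with h4 | h6
  · exact absurd (by simpa using h4) (h x y z ht)
  · exact h6

/-- from a certificate for the assumption `w ^ 6 = 1` to the fact `w ^ 4 = 1` -/
theorem fact4 (hK : Cx K) (hT : ∀ x y z : G, Tp K x y z → Ty x y z)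
    {c : ℕ × ℕ × List ℕ × List ℕ} {w : List ℕ} (hc : prodOK c w = true)
    (h : ∀ x y z : G, Tp K x y z → ¬ ∀ p ∈ [(w, 6)], evw (el x y z) p.1 ^ p.2 = 1) : Un K w 4 := by
  intro x y z ht
  rcases h6w hK hT hc ht with h4 | h6
  · exact h4
  · exact absurd (by simpa using h6) (h x y z ht)

end TCH
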