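import Pool.Agent.TCH.Trip3

/-!
# Further triples, and the letters of these
-/

set_option autoImplicit false

namespace TCH

open TCW

variable {G : Type*} [Group G]

lemma eq_of_comm {y z : G} (hy : y * y = 1) (hz : z * z = 1) (hyz : (y * z) ^ 3 = 1)
    (hc : y * z = z * y) : y = z := by
  have h1 : (y * z) * (y * z) = 1 := by
    calc (y * z) * (y * z) = (y * z) * (z * y) := by rw [← hc]
      _ = y * (z * z) * y := by group
      _ = 1 := by rw [hz, mul_one, hy]
  have h2 : y * z = 1 := by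
    rw [pow_three, h1, mul_one] at hyz
    exact hyz
  calc y = y * (z * z) := by rw [hz, mul_one]
    _ = (y * z) * z := by group
    _ = z := by rw [h2, one_mul]

/-- conjugate of an element of `K` in a dihedral group of order six -/
lemma mem_three {K : Set G} (hK : Cx K) {u v : G} (hu : u ∈ K) (hv : v * v = 1)
    (h3 : (u * v) ^ 3 = 1) : v ∈ K := by
  have hu2 := hK.sq hu
  have e1 : v = (v * u)⁻¹ * u * (v * u) := by
    rw [mul_inv_rev, inv_of_sq hu2, inv_of_sq hv]
    have e2 : u * v * (u * v) * (u * v) = 1 := by rw [← h3, pow_three]; group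
    have e3 : (u * v * u * v * u) * v = 1 := by rw [← e2]; group
    have e4 := eq_inv_of_mul_eq_one_right e3
    have e5 : (u * v * u * v * u)⁻¹ = u * v * u * (v * u) := by
      simp only [mul_inv_rev, inv_of_sq hu2, inv_of_sq hv]
      group
    exact e4.trans e5
  rw [e1]
  exact hK.cj _ hu

lemma evw_mono {ev ev' : ℕ → G} {σ : ℕ → List ℕ} {P : ℕ → Prop} (h : ∀ a, P a → evw ev (σ a) = ev' a)
    (L : List ℕ) (hL : ∀ a ∈ L, P a) : evw ev (L.flatMap σ) = evw ev' L := by
  induction L with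
  | nil => rfl
  | cons a L ih =>
    rw [List.flatMap_cons, evw_append, ih (fun b hb => hL b (by simp [hb])), h a (hL a (by simp)),
      evw_cons]

namespace Tp

variable {K : Set G} {x y z : G}

/-- conjugation by `x` on words -/
lemma cx (hK : Cx K) (h : Tp K x y z) (t : Ty x y z) (W W' : List ℕ)
    (hs : same (W.flatMap rotL) W' = true) :
    x⁻¹ * evw (el x y z) W * x = evw (el x y z) W' := by
  rw [← h.rot_spec hK, same_spec (h.st hK t) hs]

lemma cx' (hK : Cx K) (h : Tp K x y z) (t : Ty x y z) (W W' : List ℕ)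
    (hs : same (W.flatMap rotL) W' = true) :
    evw (el x y z) W = x * evw (el x y z) W' * x⁻¹ := by
  rw [← h.cx hK t W W' hs]; group

/-- a word whose rotation is in the list is trivial -/
lemma e2r (hK : Cx K) (h : Tp K x y z) (t : Ty x y z) (W W' : List ℕ)
    (hs : same (W.flatMap rotL) W' = true) (hW : (wE2.any fun c => wd 256 c == W') = true) :
    evw (el x y z) W = 1 := by
  rw [h.cx' hK t W W' hs, h.e2 hK t W' hW]; group

lemma eq_of_app (W W' : List ℕ) {ev : ℕ → G} (h : evw ev (W ++ W'.reverse) = 1)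
    (hi : ∀ a ∈ W', ev a * ev a = 1) : evw ev W = evw ev W' := by
  have key : ∀ L : List ℕ, (∀ a ∈ L, ev a * ev a = 1) → evw ev L.reverse * evw ev L = 1 := by
    intro L
    induction L with
    | nil => intro _; simp [evw]
    | cons a L ih =>
      intro hL
      rw [List.reverse_cons, evw_append, evw_cons, evw_cons, evw_nil, mul_one]
      have e1 : evw ev L.reverse * ev a * (ev a * evw ev L) =
        evw ev L.reverse * (ev a * ev a) * evw ev L := by group
      rw [e1, hL a (by simp), mul_one]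
      exact ih (fun b hb => hL b (by simp [hb]))
  have h1 := key W' hi
  rw [evw_append] at h
  have h2 : evw ev W'.reverse = (evw ev W')⁻¹ := eq_inv_of_mul_eq_one_left h1
  rw [h2, mul_inv_eq_one] at h
  exact h

lemma sqs (hK : Cx K) (h : Tp K x y z) (t : Ty x y z) (W : List ℕ)
    (hW : (W.all fun a => decide (2 ≤ a)) = true) : ∀ a ∈ W, el x y z a * el x y z a = 1 := by
  intro a ha
  have := List.all_eq_true.mp hW a ha
  exact h.el_sq hK t a (of_decide_eq_true this)

/-! ### the mirror image -/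

lemma phi (hK : Cx K) (h : Tp K x y z) : Tp K x⁻¹ (y * lb x y) (lb x y * z) := by
  have hb : lb x⁻¹ (y * lb x y) = lb x y := by
    rw [lb, inv_inv]; exact (h.b_eq hK).symm
  have hbK : lb x y ∈ K := hK.cj x h.hy
  have hcK : y * lb x y ∈ K := by rw [← h.xb hK]; exact hK.cj x hbK
  have e3 : (y * lb x y) * (lb x y * z) = y * z := by
    have : (y * lb x y) * (lb x y * z) = y * (lb x y * lb x y) * z := by group
    rw [this, h.bb hK, mul_one]
  have hz2 : (lb x y * z) * (lb x y * z) = 1 := by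
    rw [← pow_two]; exact comm_sq (h.bb hK) (h.zz hK) (h.bz hK)
  refine ⟨by rw [inv_pow, h.hx, inv_one], ?_, hcK, ?_, by rw [e3]; exact h.hyz, ?_, ?_⟩
  · have : x⁻¹ * (y * lb x y) = (x * y)⁻¹ := by
      rw [h.c_eq hK, mul_inv_rev, inv_of_sq (h.yy hK)]; group
    rw [this, inv_pow, h.hxy, inv_one]
  · exact mem_three hK hcK hz2 (by rw [e3]; exact h.hyz)
  · change lb x⁻¹ (y * lb x y) * (lb x y * z) = lb x y * z * lb x⁻¹ (y * lb x y)
    rw [hb, mul_assoc, ← h.bz hK]
  · intro e
    apply h.ne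
    have e4 : (y * lb x y) * (y * lb x y) = y * z := by
      calc (y * lb x y) * (y * lb x y) = (y * lb x y) * (lb x y * z) := by rw [← e]
        _ = y * z := e3
    rw [h.cc hK] at e4
    have := eq_inv_of_mul_eq_one_right e4.symm
    rw [this, inv_of_sq (h.yy hK)]

/-- the letters of the mirror image -/
def phiL : ℕ → List ℕ
  | 0 => [1]
  | 1 => [0]
  | 2 => [2, 3]
  | 3 => [3]
  | 4 => [3, 4]
  | 5 => [2, 6]
  | 6 => [2, 3, 5]
  | 7 => [3, 10]
  | 8 => [2, 12]
  | 9 => [2, 3, 11]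
  | 10 => [3, 7]
  | 11 => [2, 9]
  | 12 => [2, 3, 8]
  | 13 => [15]
  | 14 => [14]
  | 15 => [13]
  | a => [a]

lemma phi_el (hK : Cx K) (h : Tp K x y z) (t : Ty x y z) (a : ℕ) :
    evw (el x y z) (phiL a) = el x⁻¹ (y * lb x y) (lb x y * z) a := by
  have hb : lb x⁻¹ (y * lb x y) = lb x y := by
    rw [lb, inv_inv]; exact (h.b_eq hK).symm
  have hD : lD x⁻¹ (lb x y * z) = evw (el x y z) [2, 6] := by
    rw [lD, inv_inv]
    exact (h.cx' hK t [2, 6] [3, 4] (by decide +kernel)).symm ▸ by simp [evw, el]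
  have he : le x⁻¹ (y * lb x y) (lb x y * z) = evw (el x y z) [3, 10] := by
    rw [le, hb, hD]
    have h1 := h.e2r hK t ([3, 3, 4, 2, 6, 3, 4, 2, 6, 3, 4, 2, 6] ++ [3, 10].reverse)
      [2, 3, 2, 3, 5, 3, 4, 2, 3, 5, 3, 4, 2, 3, 5, 3, 4, 11, 2, 3] (by decide +kernel)
      (by decide +kernel)
    rw [← eq_of_app _ _ h1 (h.sqs hK t _ (by decide))]
    simp only [evw, el, mul_one, mul_assoc]
  have hg : lg x⁻¹ (y * lb x y) (lb x y * z) = evw (el x y z) [2, 9] := by
    rw [lg, hD]
    have h1 := h.e2r hK t ([2, 3, 3, 4, 2, 6, 2, 3, 3, 4, 2, 6, 2, 3, 3, 4, 2, 6] ++ [2, 9].reverse)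
      [3, 5, 3, 4, 3, 5, 3, 4, 3, 5, 3, 4, 7, 3] (by decide +kernel) (by decide +kernel)
    rw [← eq_of_app _ _ h1 (h.sqs hK t _ (by decide))]
    simp only [evw, el, mul_one, mul_assoc]
  have hn : ln x⁻¹ (y * lb x y) (lb x y * z) = evw (el x y z) [15] := by
    rw [ln, he]
    have h1 := h.e2r hK t ([3, 4, 2, 3, 3, 10, 2, 3, 3, 4] ++ [15].reverse)
      [2, 3, 5, 2, 2, 3, 11, 2, 2, 3, 5, 13] (by decide +kernel) (by decide +kernel)
    rw [← eq_of_app _ _ h1 (h.sqs hK t _ (by decide))]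
    simp only [evw, el, mul_one, mul_assoc]
  rcases Nat.lt_or_ge a 16 with h16 | h16
  · interval_cases a
    · simp [phiL, evw, el]
    · simp [phiL, evw, el]
    · simp [phiL, evw, el]
    · simp only [phiL, evw, el, mul_one]; exact hb.symm
    · simp [phiL, evw, el]
    · exact hD.symm
    · change _ = x⁻¹ * (lb x y * z) * x⁻¹⁻¹
      rw [inv_inv]
      exact (h.cx hK t [3, 4] [2, 3, 5] (by decide +kernel)).symm ▸ by simp [evw, el]
    · exact he.symm
    · change _ = x⁻¹⁻¹ * le x⁻¹ (y * lb x y) (lb x y * z) * x⁻¹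
      rw [he, inv_inv]
      exact h.cx' hK t [2, 12] [3, 10] (by decide +kernel)
    · change _ = x⁻¹ * le x⁻¹ (y * lb x y) (lb x y * z) * x⁻¹⁻¹
      rw [he, inv_inv]
      exact (h.cx hK t [3, 10] [2, 3, 11] (by decide +kernel)).symm
    · change _ = x⁻¹ * lg x⁻¹ (y * lb x y) (lb x y * z) * x⁻¹⁻¹
      rw [hg, inv_inv]
      exact (h.cx hK t [2, 9] [3, 7] (by decide +kernel)).symm
    · exact hg.symm
    · change _ = x⁻¹⁻¹ * lg x⁻¹ (y * lb x y) (lb x y * z) * x⁻¹
      rw [hg, inv_inv]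
      exact h.cx' hK t [2, 3, 8] [2, 9] (by decide +kernel)
    · exact hn.symm
    · change _ = x⁻¹⁻¹ * ln x⁻¹ (y * lb x y) (lb x y * z) * x⁻¹
      rw [hn, inv_inv]
      exact h.cx' hK t [14] [15] (by decide +kernel)
    · change _ = x⁻¹ * ln x⁻¹ (y * lb x y) (lb x y * z) * x⁻¹⁻¹
      rw [hn, inv_inv]
      exact (h.cx hK t [15] [13] (by decide +kernel)).symm
  · obtain ⟨k, rfl⟩ : ∃ k, a = k + 16 := ⟨a - 16, by omega⟩
    simp [phiL, evw, el]

/-! ### replacing `x` by `x y` or `x c` -/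

lemma ab (hK : Cx K) (h : Tp K x y z) : Tp K (x * y) y z := by
  have hb : lb (x * y) y = lb x y := by
    rw [lb, mul_inv_rev, inv_of_sq (h.yy hK)]
    have : y * x⁻¹ * y * (x * y) = y * lb x y * y := by rw [lb]; group
    rw [this, h.yb hK, mul_assoc, h.yy hK, mul_one]
  refine ⟨h.hxy, ?_, h.hy, h.hz, h.hyz, ?_, h.ne⟩
  · rw [mul_assoc, h.yy hK, mul_one]; exact h.hx
  · change lb (x * y) y * z = z * lb (x * y) y
    rw [hb]; exact h.bz hK

/-- the letters for `x y` -/
def abL : ℕ → List ℕ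
  | 0 => [0, 2]
  | 1 => [2, 1]
  | 5 => [3, 5, 3]
  | 6 => [3, 6, 3]
  | 8 => [3, 8, 3]
  | 9 => [3, 9, 3]
  | 11 => [3, 11, 3]
  | 12 => [3, 12, 3]
  | a => [a]

/-- equality of words through normal forms -/
lemma eqw (hK : Cx K) (h : Tp K x y z) (t : Ty x y z) (W W' : List ℕ) (hs : same W W' = true) :
    evw (el x y z) W = evw (el x y z) W' := same_spec (h.st hK t) hs

lemma ab_el (hK : Cx K) (h : Tp K x y z) (t : Ty x y z) (a : ℕ) :
    evw (el x y z) (abL a) = el (x * y) y z a := by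
  have hyi := inv_of_sq (h.yy hK)
  have hb : lb (x * y) y = lb x y := by
    rw [lb, mul_inv_rev, hyi]
    have : y * x⁻¹ * y * (x * y) = y * lb x y * y := by rw [lb]; group
    rw [this, h.yb hK, mul_assoc, h.yy hK, mul_one]
  have cj : ∀ W W' : List ℕ, same ([2] ++ W.flatMap rotL ++ [2]) W' = true →
      (x * y)⁻¹ * evw (el x y z) W * (x * y) = evw (el x y z) W' := by
    intro W W' hs
    rw [← h.eqw hK t _ _ hs, evw_append, evw_append, h.rot_spec hK, mul_inv_rev, hyi]
    simp only [evw, el, mul_one]; group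
  have cj' : ∀ W W' : List ℕ, same (([2] ++ W ++ [2]).flatMap (fun a => (rotL a).flatMap rotL)) W' = true →
      (x * y) * evw (el x y z) W * (x * y)⁻¹ = evw (el x y z) W' := by
    intro W W' hs
    rw [← h.eqw hK t _ _ hs, ← List.flatMap_assoc, h.rot_spec hK, h.rot_spec hK, h.x_cj, evw_append,
      evw_append, mul_inv_rev, hyi]
    simp only [evw, el, mul_one]; group
  have hD : lD (x * y) z = evw (el x y z) [3, 5, 3] := by
    rw [lD]
    exact (congrArg (fun q => (x * y)⁻¹ * q * (x * y)) (show z = evw (el x y z) [4] by simp [evw, el])).trans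
      (cj [4] [3, 5, 3] (by decide +kernel))
  have he : le (x * y) y z = evw (el x y z) [7] := by
    rw [le, hb, hD]
    have h1 := h.e2 hK t ([3, 4, 3, 5, 3, 4, 3, 5, 3, 4, 3, 5, 3] ++ [7].reverse) (by decide +kernel)
    rw [← eq_of_app _ _ h1 (h.sqs hK t _ (by decide))]
    simp only [evw, el, mul_one, mul_assoc]
  have hg : lg (x * y) y z = evw (el x y z) [3, 11, 3] := by
    rw [lg, hD]
    have h1 := h.e2 hK t ([2, 4, 3, 5, 3, 2, 4, 3, 5, 3, 2, 4, 3, 5, 3] ++ [3, 11, 3].reverse)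
      (by decide +kernel)
    rw [← eq_of_app _ _ h1 (h.sqs hK t _ (by decide))]
    simp only [evw, el, mul_one, mul_assoc]
  have hn : ln (x * y) y z = evw (el x y z) [13] := by
    rw [ln, he]
    simp only [evw, el, mul_one, ln]
  rcases Nat.lt_or_ge a 16 with h16 | h16
  · interval_cases a
    · simp [abL, evw, el]
    · simp only [abL, evw, el, mul_one, mul_inv_rev, hyi]
    · simp [abL, evw, el]
    · simp only [abL, evw, el, mul_one]; exact hb.symm
    · simp [abL, evw, el]
    · exact hD.symm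
    · change _ = x * y * z * (x * y)⁻¹
      exact ((congrArg (fun q => (x * y) * q * (x * y)⁻¹) (show z = evw (el x y z) [4] by
        simp [evw, el])).trans (cj' [4] [3, 6, 3] (by decide +kernel))).symm
    · exact he.symm
    · change _ = (x * y)⁻¹ * le (x * y) y z * (x * y)
      rw [he]; exact (cj [7] _ (by decide +kernel)).symm
    · change _ = (x * y) * le (x * y) y z * (x * y)⁻¹
      rw [he]; exact (cj' [7] _ (by decide +kernel)).symm
    · change _ = (x * y) * lg (x * y) y z * (x * y)⁻¹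
      rw [hg]; exact (cj' [3, 11, 3] _ (by decide +kernel)).symm
    · exact hg.symm
    · change _ = (x * y)⁻¹ * lg (x * y) y z * (x * y)
      rw [hg]; exact (cj [3, 11, 3] _ (by decide +kernel)).symm
    · exact hn.symm
    · change _ = (x * y)⁻¹ * ln (x * y) y z * (x * y)
      rw [hn]; exact (cj [13] _ (by decide +kernel)).symm
    · change _ = (x * y) * ln (x * y) y z * (x * y)⁻¹
      rw [hn]; exact (cj' [13] _ (by decide +kernel)).symm
  · obtain ⟨k, rfl⟩ : ∃ k, a = k + 16 := ⟨a - 16, by omega⟩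
    simp [abL, evw, el]

/-- `c x⁻¹ = (x c)⁻¹` -/
lemma xc_inv (hK : Cx K) (h : Tp K x y z) : (x * (y * lb x y))⁻¹ = y * lb x y * x⁻¹ := by
  rw [mul_inv_rev, inv_of_sq (h.cc hK)]

lemma lb_xc (hK : Cx K) (h : Tp K x y z) : lb (x * (y * lb x y)) y = lb x y := by
  rw [lb, h.xc_inv hK]
  have : y * lb x y * x⁻¹ * y * (x * (y * lb x y)) = y * (lb x y * lb x y) * y * lb x y := by
    rw [lb]; group
  rw [this, h.bb hK, mul_one, h.yy hK, one_mul]

lemma ay (hK : Cx K) (h : Tp K x y z) : Tp K (x * (y * lb x y)) y z := by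
  have e1 : x * (y * lb x y) = x⁻¹ * y * x⁻¹ := by
    rw [h.c_eq hK]
    calc x * (x * y * x⁻¹) = (x * x) * y * x⁻¹ := by group
      _ = x⁻¹ * y * x⁻¹ := by rw [h.x3]
  have e2 : y * x * y * x * y = x⁻¹ := by
    have : x * (y * x * y * x * y) = 1 := by rw [← h.hxy, pow_three]; group
    exact (inv_eq_of_mul_eq_one_right this).symm
  have e4 : y * lb x y * y = lb x y := by rw [h.yb hK, mul_assoc, h.yy hK, mul_one]
  refine ⟨?_, ?_, h.hy, h.hz, h.hyz, ?_, h.ne⟩
  · rw [e1, pow_three]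
    calc x⁻¹ * y * x⁻¹ * (x⁻¹ * y * x⁻¹ * (x⁻¹ * y * x⁻¹))
        = x⁻¹ * (y * (x⁻¹ * x⁻¹) * y * (x⁻¹ * x⁻¹) * y) * x⁻¹ := by group
      _ = x⁻¹ * (y * x * y * x * y) * x⁻¹ := by rw [h.x3']
      _ = (x⁻¹ * x⁻¹) * x⁻¹ := by rw [e2]
      _ = 1 := by rw [h.x3']; group
  · have e5 : x * (y * lb x y) * y = y⁻¹⁻¹ * (x * y) * y⁻¹ := by
      calc x * (y * lb x y) * y = x * (y * lb x y * y) := by group
        _ = x * lb x y := by rw [e4]
        _ = y * x := by rw [lb]; group
        _ = _ := by group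
    rw [e5]; exact pow_cj h.hxy
  · change lb (x * (y * lb x y)) y * z = z * lb (x * (y * lb x y)) y
    rw [h.lb_xc hK]; exact h.bz hK

/-- the letters for `x c` -/
def ayL : ℕ → List ℕ
  | 0 => [0, 2, 3]
  | 1 => [2, 3, 1]
  | 6 => [3, 6, 3]
  | 9 => [3, 9, 3]
  | 12 => [3, 12, 3]
  | a => [a]

lemma ay_el (hK : Cx K) (h : Tp K x y z) (t : Ty x y z) (a : ℕ) :
    evw (el x y z) (ayL a) = el (x * (y * lb x y)) y z a := by
  have hi := h.xc_inv hK
  have cj : ∀ W W' : List ℕ, same ([2, 3] ++ W.flatMap rotL ++ [2, 3]) W' = true →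
      (x * (y * lb x y))⁻¹ * evw (el x y z) W * (x * (y * lb x y)) = evw (el x y z) W' := by
    intro W W' hs
    rw [← h.eqw hK t _ _ hs, evw_append, evw_append, h.rot_spec hK, hi]
    simp only [evw, el, mul_one]; group
  have cj' : ∀ W W' : List ℕ,
      same (([2, 3] ++ W ++ [2, 3]).flatMap (fun a => (rotL a).flatMap rotL)) W' = true →
      (x * (y * lb x y)) * evw (el x y z) W * (x * (y * lb x y))⁻¹ = evw (el x y z) W' := by
    intro W W' hs
    rw [← h.eqw hK t _ _ hs, ← List.flatMap_assoc, h.rot_spec hK, h.rot_spec hK, h.x_cj, evw_append,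
      evw_append, hi]
    simp only [evw, el, mul_one]; group
  have hD : lD (x * (y * lb x y)) z = evw (el x y z) [5] := by
    rw [lD]
    exact (congrArg (fun q => (x * (y * lb x y))⁻¹ * q * (x * (y * lb x y)))
      (show z = evw (el x y z) [4] by simp [evw, el])).trans (cj [4] [5] (by decide +kernel))
  have hD' : lD (x * (y * lb x y)) z = lD x z := by rw [hD]; simp [evw, el]
  have he : le (x * (y * lb x y)) y z = evw (el x y z) [7] := by
    rw [le, h.lb_xc hK, hD']; simp [evw, el, le]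
  have hg : lg (x * (y * lb x y)) y z = evw (el x y z) [11] := by
    rw [lg, hD']; simp [evw, el, lg]
  have hn : ln (x * (y * lb x y)) y z = evw (el x y z) [13] := by
    rw [ln, he]
    simp only [evw, el, mul_one, ln]
  rcases Nat.lt_or_ge a 16 with h16 | h16
  · interval_cases a
    · simp [ayL, evw, el]
    · simp only [ayL, evw, el, mul_one]; rw [hi]; group
    · simp [ayL, evw, el]
    · simp only [ayL, evw, el, mul_one]; exact (h.lb_xc hK).symm
    · simp [ayL, evw, el]
    · exact hD.symm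
    · change _ = x * (y * lb x y) * z * (x * (y * lb x y))⁻¹
      exact ((congrArg (fun q => (x * (y * lb x y)) * q * (x * (y * lb x y))⁻¹)
        (show z = evw (el x y z) [4] by simp [evw, el])).trans
          (cj' [4] [3, 6, 3] (by decide +kernel))).symm
    · exact he.symm
    · change _ = (x * (y * lb x y))⁻¹ * le (x * (y * lb x y)) y z * (x * (y * lb x y))
      rw [he]; exact (cj [7] _ (by decide +kernel)).symm
    · change _ = (x * (y * lb x y)) * le (x * (y * lb x y)) y z * (x * (y * lb x y))⁻¹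
      rw [he]; exact (cj' [7] _ (by decide +kernel)).symm
    · change _ = (x * (y * lb x y)) * lg (x * (y * lb x y)) y z * (x * (y * lb x y))⁻¹
      rw [hg]; exact (cj' [11] _ (by decide +kernel)).symm
    · exact hg.symm
    · change _ = (x * (y * lb x y))⁻¹ * lg (x * (y * lb x y)) y z * (x * (y * lb x y))
      rw [hg]; exact (cj [11] _ (by decide +kernel)).symm
    · exact hn.symm
    · change _ = (x * (y * lb x y))⁻¹ * ln (x * (y * lb x y)) y z * (x * (y * lb x y))
      rw [hn]; exact (cj [13] _ (by decide +kernel)).symm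
    · change _ = (x * (y * lb x y)) * ln (x * (y * lb x y)) y z * (x * (y * lb x y))⁻¹
      rw [hn]; exact (cj' [13] _ (by decide +kernel)).symm
  · obtain ⟨k, rfl⟩ : ∃ k, a = k + 16 := ⟨a - 16, by omega⟩
    simp [ayL, evw, el]

/-! ### the triples with `z` replaced by `e` or `f` -/

lemma te (hK : Cx K) (h : Tp K x y z) (t : Ty x y z) : Tp K x y (le x y z) := by
  have h3 : (y * le x y z) ^ 3 = 1 := by
    have h1 := h.e2 hK t [2, 7, 2, 7, 2, 7] (by decide +kernel)
    rw [← h1, pow_three]; simp only [evw, el, mul_one, mul_assoc]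
  refine ⟨h.hx, h.hxy, h.hy, mem_three hK h.hy (h.ee hK t) h3, h3, (h.hbe hK t).symm, ?_⟩
  intro e
  apply h.ne
  refine eq_of_comm (h.yy hK) (h.zz hK) h.hyz ?_
  have h1 := h.e2 hK t [4, 7, 4, 7] (by decide +kernel)
  have h2 := sq_comm (h.zz hK) (h.ee hK t) (by rw [← h1]; simp only [evw, el, mul_one, mul_assoc])
  rw [← e] at h2
  exact h2.symm

lemma tf (hK : Cx K) (h : Tp K x y z) (t : Ty x y z) : Tp K x y (x * lg x y z * x⁻¹) := by
  have h3 : (y * (x * lg x y z * x⁻¹)) ^ 3 = 1 := by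
    have h1 := h.e2 hK t [11, 3, 11, 3, 11, 3] (by decide +kernel)
    have h2' : (lg x y z * lb x y) ^ 3 = 1 := by
      rw [← h1, pow_three]; simp only [evw, el, mul_one, mul_assoc]
    have h2 : (lb x y * lg x y z) ^ 3 = 1 := by
      have e : lb x y * lg x y z = (lb x y)⁻¹⁻¹ * (lg x y z * lb x y) * (lb x y)⁻¹ := by group
      rw [e]; exact pow_cj h2'
    have h4 : y * (x * lg x y z * x⁻¹) = x * (lb x y * lg x y z) * x⁻¹ := by rw [lb]; group
    rw [h4]; exact pow_cj' h2
  have hf2 := sq_cj' (t := x) (h.gg hK t)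
  refine ⟨h.hx, h.hxy, h.hy, mem_three hK h.hy hf2 h3, h3, ?_, ?_⟩
  · exact (h.cm_all hK t 10 2 (by norm_num) (by decide))
  · intro e
    apply h.ne
    have hg : lg x y z = lb x y := by rw [lb]; nth_rewrite 2 [e]; group
    have h1 := h.e2 hK t [5, 11, 5, 11] (by decide +kernel)
    have h2 := sq_comm (h.DD hK) (h.gg hK t) (by rw [← h1]; simp only [evw, el, mul_one, mul_assoc])
    rw [hg] at h2
    have h5 := eq_of_comm (h.bb hK) (h.DD hK) h.bD3 h2.symm
    have : x * lb x y * x⁻¹ = x * lD x z * x⁻¹ := by rw [h5]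
    rw [← h.y_eq] at this
    rw [this, lD]; group

/-- the letters `x x⁻¹ y b z D u` for the triple with `e` -/
def teL : ℕ → List ℕ
  | 4 => [7]
  | 5 => [8]
  | 6 => [9]
  | a => [a]

/-- the letters `x x⁻¹ y b z D u` for the triple with `f` -/
def tfL : ℕ → List ℕ
  | 4 => [10]
  | 5 => [11]
  | 6 => [12]
  | a => [a]

lemma te_el (x y z : G) (a : ℕ) (ha : a ≤ 6) :
    evw (el x y z) (teL a) = el x y (le x y z) a := by
  interval_cases a <;> simp [teL, evw, el, lD]

lemma tf_el (h : Tp K x y z) (a : ℕ) (ha : a ≤ 6) :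
    evw (el x y z) (tfL a) = el x y (x * lg x y z * x⁻¹) a := by
  interval_cases a
  · simp [tfL, evw, el]
  · simp [tfL, evw, el]
  · simp [tfL, evw, el]
  · simp [tfL, evw, el]
  · simp [tfL, evw, el]
  · simp only [tfL, evw, el, lD, mul_one]; group
  · simp only [tfL, evw, el, mul_one]
    calc x⁻¹ * lg x y z * x = (x * x) * lg x y z * (x⁻¹ * x⁻¹) := by rw [h.x3, h.x3']
      _ = _ := by group

end Tp

end TCH
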