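import Pool.Agent.TCH.KMem

/-!
# Case distinctions
-/

set_option autoImplicit false

namespace TCH

open TCW Tp

variable {G : Type*} [Group G] {K : Set G} {x y z : G}

/-- the assumptions are contradictory for all triples -/
def Ng (K : Set G) (N : List (List ℕ × ℕ)) : Prop :=
  ∀ x y z : G, Tp K x y z → ¬ ∀ p ∈ N, evw (el x y z) p.1 ^ p.2 = 1

/-- images of the assumptions -/
def imgN : List ℕ → List (List ℕ × ℕ) → List (List ℕ × ℕ)
  | [], N => N
  | op :: g, N => imgN g (N.map fun p => (stepOp op p.1, p.2))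

/-- admissible global operations -/
def gOK (g : List ℕ) : Bool := g.all fun a => Nat.beq a 5 || (Nat.beq a 6 || Nat.beq a 7)

lemma ng_op (hK : Cx K) (hT : ∀ x y z : G, Tp K x y z → Ty x y z) {N : List (List ℕ × ℕ)}
    (hN : Ng K N) {op : ℕ} (ho : op = 5 ∨ op = 6 ∨ op = 7) :
    Ng K (N.map fun p => (stepOp op p.1, p.2)) := by
  intro x y z h hp
  have t := hT x y z h
  rcases ho with rfl | rfl | rfl
  · refine hN _ _ _ (h.phi hK) (fun p hpN => ?_)
    have := hp _ (List.mem_map.mpr ⟨p, hpN, rfl⟩)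
    change evw (el x y z) (p.1.flatMap phiL) ^ p.2 = 1 at this
    rwa [evw_flatMap (h.phi_el hK t)] at this
  · refine hN _ _ _ (h.ab hK) (fun p hpN => ?_)
    have := hp _ (List.mem_map.mpr ⟨p, hpN, rfl⟩)
    change evw (el x y z) (p.1.flatMap abL) ^ p.2 = 1 at this
    rwa [evw_flatMap (h.ab_el hK t)] at this
  · refine hN _ _ _ (h.ay hK) (fun p hpN => ?_)
    have := hp _ (List.mem_map.mpr ⟨p, hpN, rfl⟩)
    change evw (el x y z) (p.1.flatMap ayL) ^ p.2 = 1 at this
    rwa [evw_flatMap (h.ay_el hK t)] at this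

lemma ng_img (hK : Cx K) (hT : ∀ x y z : G, Tp K x y z → Ty x y z) (g : List ℕ) :
    ∀ N : List (List ℕ × ℕ), gOK g = true → Ng K N → Ng K (imgN g N) := by
  induction g with
  | nil => intro N _ hN; exact hN
  | cons op g ih =>
    intro N hg hN
    rw [gOK, List.all_cons, Bool.and_eq_true] at hg
    refine ih _ hg.2 (ng_op hK hT hN ?_)
    have h1 := hg.1
    simp only [Bool.or_eq_true] at h1
    rcases h1 with h1 | h1 | h1
    · exact Or.inl (Nat.eq_of_beq_eq_true h1)
    · exact Or.inr (Or.inl (Nat.eq_of_beq_eq_true h1))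
    · exact Or.inr (Or.inr (Nat.eq_of_beq_eq_true h1))

/-- every assumption of the list is derived from facts or from the context -/
def litsOK (Γ ctx : List (List ℕ × ℕ)) : List (ℕ × List ℕ) → List (List ℕ × ℕ) → Bool
  | [], [] => true
  | d :: ds, p :: ps => specOK Γ ctx d p.1 p.2 && litsOK Γ ctx ds ps
  | _, _ => false

lemma litsOK_spec (hK : Cx K) (hT : ∀ x y z : G, Tp K x y z → Ty x y z)
    {Γ ctx : List (List ℕ × ℕ)} (hΓ : ∀ p ∈ Γ, Un K p.1 p.2) (h : Tp K x y z)
    (hl : ∀ p ∈ ctx, evw (el x y z) p.1 ^ p.2 = 1) :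
    ∀ (ds : List (ℕ × List ℕ)) (ps : List (List ℕ × ℕ)),
    litsOK Γ ctx ds ps = true → ∀ p ∈ ps, evw (el x y z) p.1 ^ p.2 = 1 := by
  intro ds
  induction ds with
  | nil =>
    intro ps hs p hp
    rcases ps with _ | ⟨s, ps⟩
    · simp at hp
    · exact absurd hs (by simp [litsOK])
  | cons d ds ih =>
    intro ps hs p hp
    rcases ps with _ | ⟨s, ps⟩
    · simp at hp
    · rw [litsOK, Bool.and_eq_true] at hs
      rcases List.mem_cons.1 hp with rfl | hp
      · exact specOK_spec hK hT hΓ h hl hs.1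
      · exact ih ps hs.2 p hp

/-- trees of case distinctions -/
inductive Tree : Type
  | leaf (i : ℕ) (g : List ℕ) (ds : List (ℕ × List ℕ)) : Tree
  | node (c : ℕ × ℕ × List ℕ × List ℕ) (w : List ℕ) (l r : Tree) : Tree

/-- the check of a tree -/
def Tree.ok (Γ : List (List ℕ × ℕ)) (Ns : List (List (List ℕ × ℕ))) :
    Tree → List (List ℕ × ℕ) → Bool
  | .leaf i g ds, ctx => gOK g && (Nat.blt i Ns.length && litsOK Γ ctx ds (imgN g (Ns.getD i [])))
  | .node c w l r, ctx => prodOK c w && (l.ok Γ Ns ((w, 4) :: ctx) && r.ok Γ Ns ((w, 6) :: ctx))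

theorem Tree.sound (hK : Cx K) (hT : ∀ x y z : G, Tp K x y z → Ty x y z)
    {Γ : List (List ℕ × ℕ)} (hΓ : ∀ p ∈ Γ, Un K p.1 p.2) {Ns : List (List (List ℕ × ℕ))}
    (hNs : ∀ N ∈ Ns, Ng K N) (T : Tree) : ∀ ctx : List (List ℕ × ℕ), T.ok Γ Ns ctx = true →
    Ng K ctx := by
  induction T with
  | leaf i g ds =>
    intro ctx hok x y z h hctx
    rw [Tree.ok, Bool.and_eq_true, Bool.and_eq_true] at hok
    obtain ⟨h1, h2, h3⟩ := hok
    have hi : i < Ns.length := Nat.ble_eq.mp h2
    have hN : Ng K (Ns.getD i []) := by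
      rw [List.getD_eq_getElem _ _ hi]; exact hNs _ (List.getElem_mem hi)
    exact ng_img hK hT g _ h1 hN x y z h (litsOK_spec hK hT hΓ h hctx ds _ h3)
  | node c w l r ihl ihr =>
    intro ctx hok x y z h hctx
    rw [Tree.ok, Bool.and_eq_true, Bool.and_eq_true] at hok
    obtain ⟨h1, h2, h3⟩ := hok
    rcases h6w hK hT h1 h with h4 | h6
    · refine ihl _ h2 x y z h (fun p hp => ?_)
      rcases List.mem_cons.1 hp with rfl | hp
      · exact h4
      · exact hctx p hp
    · refine ihr _ h3 x y z h (fun p hp => ?_)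
      rcases List.mem_cons.1 hp with rfl | hp
      · exact h6
      · exact hctx p hp

end TCH
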