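import Pool.Agent.TCH.Basic
import Pool.Agent.TCH.E576

/-!
# The relations of a triple
-/

set_option autoImplicit false

namespace TCH

open TCW

variable {G : Type*} [Group G]

lemma spec {ev : ℕ → G} {L : List ℕ} {code k : ℕ} (h : wd 64 code = L) (h2 : evw ev L ^ k = 1) :
    evw ev (wd 64 code) ^ k = 1 := by rw [h]; exact h2

lemma inv_of_sq {a : G} (h : a * a = 1) : a⁻¹ = a := (eq_inv_of_mul_eq_one_left h).symm

lemma comm_sq {a b : G} (ha : a * a = 1) (hb : b * b = 1) (h : a * b = b * a) : (a * b) ^ 2 = 1 := by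
  rw [pow_two]
  calc a * b * (a * b) = a * (b * a) * b := by group
    _ = a * (a * b) * b := by rw [h]
    _ = (a * a) * (b * b) := by group
    _ = 1 := by rw [ha, hb, mul_one]

lemma sq_comm {a b : G} (ha : a * a = 1) (hb : b * b = 1) (h : (a * b) * (a * b) = 1) :
    a * b = b * a := by
  have := eq_inv_of_mul_eq_one_left h
  rw [this, mul_inv_rev, inv_of_sq ha, inv_of_sq hb]

/-- the orders of the four products which fix the structure of `⟨y, b, z, D⟩` -/
structure Ty (x y z : G) : Prop where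
  a1 : (z * lD x z) ^ 6 = 1
  a2 : (z * (lD x z * (y * lb x y))) ^ 6 = 1
  a3 : (z * (lb x y * lD x z)) ^ 4 = 1
  a4 : (z * (lb x y * (lD x z * (y * lb x y)))) ^ 6 = 1

namespace Tp

variable {K : Set G} {x y z : G}

lemma yy (hK : Cx K) (h : Tp K x y z) : y * y = 1 := hK.sq h.hy
lemma zz (hK : Cx K) (h : Tp K x y z) : z * z = 1 := hK.sq h.hz

lemma fr (hK : Cx K) (h : Tp K x y z) : TCG.Fr x y (lb x y) (x * y * x⁻¹) :=
  TCG.Fr.of h.hx (by rw [pow_two, h.yy hK]) h.hxy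

lemma bb (hK : Cx K) (h : Tp K x y z) : lb x y * lb x y = 1 := (h.fr hK).hb

lemma yb (hK : Cx K) (h : Tp K x y z) : y * lb x y = lb x y * y := by
  rw [(h.fr hK).yb, (h.fr hK).by_]

lemma DD (hK : Cx K) (h : Tp K x y z) : lD x z * lD x z = 1 := by
  have : lD x z * lD x z = x⁻¹ * (z * z) * x := by rw [lD]; group
  rw [this, h.zz hK]; group

lemma bz (_hK : Cx K) (h : Tp K x y z) : lb x y * z = z * lb x y := h.hbz

lemma x3 (h : Tp K x y z) : x * x = x⁻¹ := by
  rw [eq_inv_iff_mul_eq_one, ← pow_three', h.hx]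

lemma x3' (h : Tp K x y z) : x⁻¹ * x⁻¹ = x := by
  rw [← mul_inv_rev, h.x3, inv_inv]

/-- `c = y b = x y x⁻¹` -/
lemma c_eq (hK : Cx K) (h : Tp K x y z) : y * lb x y = x * y * x⁻¹ := (h.fr hK).yb

/-- `x⁻¹ b x = y b` -/
lemma xb (hK : Cx K) (h : Tp K x y z) : x⁻¹ * lb x y * x = y * lb x y := by
  rw [h.c_eq hK]; exact (h.fr hK).xb

/-- `x⁻¹ (y b) x = y` -/
lemma xc (hK : Cx K) (h : Tp K x y z) : x⁻¹ * (y * lb x y) * x = y := by
  rw [h.c_eq hK]; group

lemma cD (hK : Cx K) (h : Tp K x y z) : (y * lb x y) * lD x z = lD x z * (y * lb x y) := by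
  rw [← h.xb hK, lD]
  calc x⁻¹ * lb x y * x * (x⁻¹ * z * x) = x⁻¹ * (lb x y * z) * x := by group
    _ = x⁻¹ * (z * lb x y) * x := by rw [h.bz hK]
    _ = _ := by group

lemma bD3 (h : Tp K x y z) : (lb x y * lD x z) ^ 3 = 1 := by
  have : lb x y * lD x z = x⁻¹ * (y * z) * x := by rw [lb, lD]; group
  rw [this]; exact pow_cj h.hyz

/-- the first evaluation, of `y b z D` -/
def ev1 (x y z : G) : ℕ → G
  | 2 => y
  | 3 => lb x y
  | 4 => z
  | 5 => lD x z
  | _ => 1

lemma lt1 (hK : Cx K) (h : Tp K x y z) : Lt (ev1 x y z) := by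
  refine ⟨rfl, ?_⟩
  intro a ha
  by_cases h2 : a = 2
  · subst h2; exact h.yy hK
  by_cases h3 : a = 3
  · subst h3; exact h.bb hK
  by_cases h4 : a = 4
  · subst h4; exact h.zz hK
  by_cases h5 : a = 5
  · subst h5; exact h.DD hK
  interval_cases a <;> first | contradiction | exact mul_one _

lemma sE1_ok (hK : Cx K) (h : Tp K x y z) (t : Ty x y z) :
    ∀ p ∈ sE1, evw (ev1 x y z) (wd 64 p.1) ^ p.2 = 1 := by
  have e1 : y * lb x y * lD x z = lD x z * (y * lb x y) := h.cD hK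
  have hc2 : (y * lb x y) * (y * lb x y) = 1 := by
    rw [← pow_two]; exact comm_sq (h.yy hK) (h.bb hK) (h.yb hK)
  simp only [sE1, List.forall_mem_cons, List.not_mem_nil, false_imp_iff, implies_true, and_true]
  refine ⟨spec (L := [3, 4]) (by decide +kernel) ?_, spec (L := [2, 3]) (by decide +kernel) ?_,
    spec (L := [2, 3, 5]) (by decide +kernel) ?_, spec (L := [2, 4]) (by decide +kernel) ?_,
    spec (L := [4, 3, 5]) (by decide +kernel) ?_, spec (L := [3, 5]) (by decide +kernel) ?_,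
    spec (L := [4, 5]) (by decide +kernel) ?_⟩ <;>
    simp only [evw, ev1, mul_one]
  · exact comm_sq (h.bb hK) (h.zz hK) (h.bz hK)
  · exact comm_sq (h.yy hK) (h.bb hK) (h.yb hK)
  · rw [← mul_assoc]; exact comm_sq hc2 (h.DD hK) e1
  · exact h.hyz
  · exact t.a3
  · exact h.bD3
  · exact t.a1

lemma cE1_ok (hK : Cx K) (h : Tp K x y z) (t : Ty x y z) :
    ∀ code ∈ wE1, evw (ev1 x y z) (wd 256 code) = 1 :=
  identities (h.lt1 hK) (h.sE1_ok hK t) cE1

lemma ee (hK : Cx K) (h : Tp K x y z) (t : Ty x y z) : le x y z * le x y z = 1 := by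
  have h1 := h.cE1_ok hK t (wE1.getD 0 0) (by decide)
  have h2 : wd 256 (wE1.getD 0 0) = [3, 4, 5, 4, 5, 4, 5, 3, 4, 5, 4, 5, 4, 5] := by decide +kernel
  rw [h2] at h1
  rw [← h1]
  simp only [evw, ev1, le, mul_one, mul_assoc]

lemma gg (hK : Cx K) (h : Tp K x y z) (t : Ty x y z) : lg x y z * lg x y z = 1 := by
  have h1 := h.cE1_ok hK t (wE1.getD 1 0) (by decide)
  have h2 : wd 256 (wE1.getD 1 0) =
    [2, 4, 5, 2, 4, 5, 2, 4, 5, 2, 4, 5, 2, 4, 5, 2, 4, 5] := by decide +kernel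
  rw [h2] at h1
  rw [← h1]
  simp only [evw, ev1, lg, mul_one, mul_assoc]

lemma nn (hK : Cx K) (h : Tp K x y z) (t : Ty x y z) : ln x y z * ln x y z = 1 := by
  have e1 : ln x y z * ln x y z = z * y * le x y z * y * (z * z) * y * le x y z * y * z := by
    rw [ln]; group
  have e2 : z * y * le x y z * y * 1 * y * le x y z * y * z =
    z * y * le x y z * (y * y) * le x y z * y * z := by group
  have e3 : z * y * le x y z * 1 * le x y z * y * z = z * y * (le x y z * le x y z) * y * z := by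
    group
  rw [e1, h.zz hK, e2, h.yy hK, e3, h.ee hK t]
  have e4 : z * y * 1 * y * z = z * (y * y) * z := by group
  rw [e4, h.yy hK, mul_one, h.zz hK]

lemma sq_cj {a t : G} (h : a * a = 1) : (t⁻¹ * a * t) * (t⁻¹ * a * t) = 1 := by
  have : (t⁻¹ * a * t) * (t⁻¹ * a * t) = t⁻¹ * (a * a) * t := by group
  rw [this, h]; group

lemma sq_cj' {a t : G} (h : a * a = 1) : (t * a * t⁻¹) * (t * a * t⁻¹) = 1 := by
  have : (t * a * t⁻¹) * (t * a * t⁻¹) = t * (a * a) * t⁻¹ := by group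
  rw [this, h]; group

lemma el_sq (hK : Cx K) (h : Tp K x y z) (t : Ty x y z) (a : ℕ) (ha : 2 ≤ a) :
    el x y z a * el x y z a = 1 := by
  rcases Nat.lt_or_ge a 16 with h16 | h16
  · interval_cases a
    · exact h.yy hK
    · exact h.bb hK
    · exact h.zz hK
    · exact h.DD hK
    · exact sq_cj' (h.zz hK)
    · exact h.ee hK t
    · exact sq_cj (h.ee hK t)
    · exact sq_cj' (h.ee hK t)
    · exact sq_cj' (h.gg hK t)
    · exact h.gg hK t
    · exact sq_cj (h.gg hK t)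
    · exact h.nn hK t
    · exact sq_cj (h.nn hK t)
    · exact sq_cj' (h.nn hK t)
  · obtain ⟨k, rfl⟩ : ∃ k, a = k + 16 := ⟨a - 16, by omega⟩
    exact mul_one 1

lemma iv_ge (a : ℕ) (ha : 2 ≤ a) : iv a = a := by
  obtain ⟨k, rfl⟩ : ∃ k, a = k + 2 := ⟨a - 2, by omega⟩
  rfl

lemma lt (hK : Cx K) (h : Tp K x y z) (t : Ty x y z) : Lt (el x y z) := by
  refine ⟨rfl, ?_⟩
  intro a ha
  rcases Nat.lt_or_ge a 2 with h2 | h2
  · interval_cases a
    · exact mul_inv_cancel x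
    · exact inv_mul_cancel x
  · rw [iv_ge a h2]; exact h.el_sq hK t a h2

end Tp

end TCH
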