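import Pool.Agent.TCH.Trip

/-!
# The relations between the letters of a triple
-/

set_option autoImplicit false

namespace TCH

open TCW

variable {G : Type*} [Group G]

namespace Tp

variable {K : Set G} {x y z : G}

lemma sE2_ok (hK : Cx K) (h : Tp K x y z) (t : Ty x y z) :
    ∀ p ∈ sE2, evw (el x y z) (wd 64 p.1) ^ p.2 = 1 := by
  have e1 : y * lb x y * lD x z = lD x z * (y * lb x y) := h.cD hK
  have hc2 : (y * lb x y) * (y * lb x y) = 1 := by
    rw [← pow_two]; exact comm_sq (h.yy hK) (h.bb hK) (h.yb hK)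
  simp only [sE2, List.forall_mem_cons, List.not_mem_nil, false_imp_iff, implies_true, and_true]
  refine ⟨spec (L := [7, 3, 4, 5, 4, 5, 4, 5]) (by decide +kernel) ?_,
    spec (L := [11, 2, 4, 5, 2, 4, 5, 2, 4, 5]) (by decide +kernel) ?_,
    spec (L := [2, 3]) (by decide +kernel) ?_,
    spec (L := [2, 3, 5]) (by decide +kernel) ?_, spec (L := [3, 4]) (by decide +kernel) ?_,
    spec (L := [2, 4]) (by decide +kernel) ?_, spec (L := [3, 5]) (by decide +kernel) ?_,
    spec (L := [4, 3, 5]) (by decide +kernel) ?_, spec (L := [4, 5, 2, 3]) (by decide +kernel) ?_,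
    spec (L := [4, 3, 5, 2, 3]) (by decide +kernel) ?_,
    spec (L := [4, 5]) (by decide +kernel) ?_,
    spec (L := [13, 4, 2, 7, 2, 4]) (by decide +kernel) ?_⟩ <;>
    simp only [evw, el, mul_one, pow_one]
  · have : lb x y * (z * (lD x z * (z * (lD x z * (z * lD x z))))) = le x y z := by
      rw [le]; simp only [mul_assoc]
    rw [this]; exact h.ee hK t
  · have : y * (z * (lD x z * (y * (z * (lD x z * (y * (z * lD x z))))))) = lg x y z := by
      rw [lg]; simp only [mul_assoc]
    rw [this]; exact h.gg hK t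
  · exact comm_sq (h.yy hK) (h.bb hK) (h.yb hK)
  · rw [← mul_assoc]; exact comm_sq hc2 (h.DD hK) e1
  · exact comm_sq (h.bb hK) (h.zz hK) (h.bz hK)
  · exact h.hyz
  · exact h.bD3
  · exact t.a3
  · exact t.a2
  · exact t.a4
  · exact t.a1
  · have : z * (y * (le x y z * (y * z))) = ln x y z := by
      rw [ln]; simp only [mul_assoc]
    rw [this]; exact h.nn hK t

/-- all words of the certificate are trivial -/
lemma cE2_ok (hK : Cx K) (h : Tp K x y z) (t : Ty x y z) :
    ∀ code ∈ wE2, evw (el x y z) (wd 256 code) = 1 :=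
  identities (h.lt hK t) (h.sE2_ok hK t) cE2

/-- a word of the list is trivial -/
lemma e2 (hK : Cx K) (h : Tp K x y z) (t : Ty x y z) (L : List ℕ)
    (hL : (wE2.any fun c => wd 256 c == L) = true) : evw (el x y z) L = 1 := by
  obtain ⟨c, hc, e⟩ := List.any_eq_true.mp hL
  rw [← eq_of_beq e]
  exact h.cE2_ok hK t c hc

/-- rotation of the letters by `x` -/
def rotL : ℕ → List ℕ
  | 2 => [3]
  | 3 => [2, 3]
  | 4 => [5]
  | 5 => [6]
  | 6 => [4]
  | 7 => [8]
  | 8 => [9]
  | 9 => [7]
  | 10 => [11]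
  | 11 => [12]
  | 12 => [10]
  | 13 => [14]
  | 14 => [15]
  | 15 => [13]
  | a => [a]

lemma x_cj {a : G} (h : Tp K x y z) : x⁻¹ * (x⁻¹ * a * x) * x = x * a * x⁻¹ := by
  have : x⁻¹ * (x⁻¹ * a * x) * x = (x⁻¹ * x⁻¹) * a * (x * x) := by group
  rw [this, h.x3, h.x3']

lemma rotL_spec (hK : Cx K) (h : Tp K x y z) (a : ℕ) :
    evw (el x y z) (rotL a) = x⁻¹ * el x y z a * x := by
  rcases Nat.lt_or_ge a 16 with h16 | h16
  · interval_cases a
    · simp [rotL, evw, el]
    · simp [rotL, evw, el]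
    · simp [rotL, evw, el, lb]
    · simp only [rotL, evw, el, mul_one]; exact (h.xb hK).symm
    · simp [rotL, evw, el, lD]
    · simp only [rotL, evw, el, mul_one, lD]; exact (h.x_cj).symm
    · simp only [rotL, evw, el, mul_one]; group
    · simp [rotL, evw, el]
    · simp only [rotL, evw, el, mul_one]; exact (h.x_cj).symm
    · simp only [rotL, evw, el, mul_one]; group
    · simp only [rotL, evw, el, mul_one]; group
    · simp [rotL, evw, el]
    · simp only [rotL, evw, el, mul_one]; exact (h.x_cj).symm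
    · simp [rotL, evw, el]
    · simp only [rotL, evw, el, mul_one]; exact (h.x_cj).symm
    · simp only [rotL, evw, el, mul_one]; group
  · obtain ⟨k, rfl⟩ : ∃ k, a = k + 16 := ⟨a - 16, by omega⟩
    simp [rotL, evw, el]

lemma rot_spec (hK : Cx K) (h : Tp K x y z) (L : List ℕ) :
    evw (el x y z) (L.flatMap rotL) = x⁻¹ * evw (el x y z) L * x := by
  rw [evw_flatMap (ev' := fun a => x⁻¹ * el x y z a * x) (h.rotL_spec hK)]
  exact evw_congr_cj (fun a => rfl) L

end Tp

end TCH
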