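import Pool.Agent.TCH.Trip2

/-!
# Commutation of the letters with `V`
-/

set_option autoImplicit false

namespace TCH

open TCW

variable {G : Type*} [Group G]

lemma cj_comm {a b a' b' t : G} (ha : a' = t⁻¹ * a * t) (hb : b' = t⁻¹ * b * t) (h : a * b = b * a) :
    a' * b' = b' * a' := by
  rw [ha, hb]
  calc t⁻¹ * a * t * (t⁻¹ * b * t) = t⁻¹ * (a * b) * t := by group
    _ = t⁻¹ * (b * a) * t := by rw [h]
    _ = _ := by group

namespace Tp

variable {K : Set G} {x y z : G}

lemma y_eq (h : Tp K x y z) : y = x * lb x y * x⁻¹ := by rw [lb]; group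

lemma b_eq (hK : Cx K) (h : Tp K x y z) : lb x y = x * (y * lb x y) * x⁻¹ := by
  rw [← h.xb hK]; group

lemma c_eq' (hK : Cx K) (h : Tp K x y z) : y * lb x y = x * y * x⁻¹ := h.c_eq hK

lemma hbe (hK : Cx K) (h : Tp K x y z) (t : Ty x y z) : le x y z * lb x y = lb x y * le x y z := by
  have h1 := h.e2 hK t [7, 3, 7, 3] (by decide +kernel)
  simp only [evw, el, mul_one] at h1
  exact sq_comm (h.ee hK t) (h.bb hK) (by rw [← h1]; simp only [mul_assoc])

lemma cc (hK : Cx K) (h : Tp K x y z) : (y * lb x y) * (y * lb x y) = 1 := by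
  rw [← pow_two]; exact comm_sq (h.yy hK) (h.bb hK) (h.yb hK)

lemma hcg (hK : Cx K) (h : Tp K x y z) (t : Ty x y z) :
    lg x y z * (y * lb x y) = (y * lb x y) * lg x y z := by
  have h1 := h.e2 hK t [11, 2, 3, 11, 2, 3] (by decide +kernel)
  simp only [evw, el, mul_one] at h1
  exact sq_comm (h.gg hK t) (h.cc hK) (by rw [← h1]; simp only [mul_assoc])

lemma hny (hK : Cx K) (h : Tp K x y z) (t : Ty x y z) : ln x y z * y = y * ln x y z := by
  have h1 := h.e2 hK t [13, 2, 13, 2] (by decide +kernel)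
  simp only [evw, el, mul_one] at h1
  exact sq_comm (h.nn hK t) (h.yy hK) (by rw [← h1]; simp only [mul_assoc])

lemma hnb (hK : Cx K) (h : Tp K x y z) (t : Ty x y z) : ln x y z * lb x y = lb x y * ln x y z := by
  have h1 := h.e2 hK t [13, 3, 13, 3] (by decide +kernel)
  simp only [evw, el, mul_one] at h1
  exact sq_comm (h.nn hK t) (h.bb hK) (by rw [← h1]; simp only [mul_assoc])

lemma hnc (hK : Cx K) (h : Tp K x y z) (t : Ty x y z) :
    ln x y z * (y * lb x y) = (y * lb x y) * ln x y z := by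
  rw [← mul_assoc, h.hny hK t, mul_assoc, h.hnb hK t, mul_assoc]

/-- conjugation by `x⁻¹` as conjugation by an inverse -/
lemma cji (a : G) : x * a * x⁻¹ = (x⁻¹)⁻¹ * a * x⁻¹ := by rw [inv_inv]

lemma cm_all (hK : Cx K) (h : Tp K x y z) (t : Ty x y z) (a v : ℕ) (hv : v < 4)
    (hr : rp (cls a) v = 0) :
    vv (el x y z) v * el x y z a = el x y z a * vv (el x y z) v := by
  have key : ∀ {p q : G}, p * q = q * p → q * p = p * q := fun e => e.symm
  rcases Nat.lt_or_ge a 16 with h16 | h16
  · interval_cases a <;> interval_cases v <;>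
      first
      | (exfalso; revert hr; decide)
      | (change (1 : G) * _ = _ * 1; rw [one_mul, mul_one])
      | skip
    -- z with b
    · exact h.bz hK
    -- D with c
    · exact h.cD hK
    -- u with y
    · exact cj_comm (t := x⁻¹) (by rw [← cji]; exact h.y_eq) (cji _) (h.bz hK)
    -- e with b
    · exact (h.hbe hK t).symm
    -- m with c
    · exact cj_comm (t := x) (h.xb hK).symm rfl (h.hbe hK t).symm
    -- v with y
    · exact cj_comm (t := x⁻¹) (by rw [← cji]; exact h.y_eq) (cji _) (h.hbe hK t).symm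
    -- f with b
    · exact cj_comm (t := x⁻¹) (by rw [← cji]; exact h.b_eq hK) (cji _) (h.hcg hK t).symm
    -- g with c
    · exact (h.hcg hK t).symm
    -- w with y
    · exact cj_comm (t := x) (h.xc hK).symm rfl (h.hcg hK t).symm
    -- n
    · exact (h.hny hK t).symm
    · exact (h.hnb hK t).symm
    · exact (h.hnc hK t).symm
    -- p
    · exact cj_comm (t := x) (h.xc hK).symm rfl (h.hnc hK t).symm
    · exact cj_comm (t := x) (by rfl) rfl (h.hny hK t).symm
    · exact cj_comm (t := x) (h.xb hK).symm rfl (h.hnb hK t).symm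
    -- q
    · exact cj_comm (t := x⁻¹) (by rw [← cji]; exact h.y_eq) (cji _) (h.hnb hK t).symm
    · exact cj_comm (t := x⁻¹) (by rw [← cji]; exact h.b_eq hK) (cji _) (h.hnc hK t).symm
    · exact cj_comm (t := x⁻¹) (by rw [← cji]; exact h.c_eq hK) (cji _) (h.hny hK t).symm
  · obtain ⟨k, rfl⟩ : ∃ k, a = k + 16 := ⟨a - 16, by omega⟩
    change _ * (1 : G) = 1 * _
    rw [one_mul, mul_one]

lemma st (hK : Cx K) (h : Tp K x y z) (t : Ty x y z) : St (el x y z) where
  yy := h.yy hK
  bb := h.bb hK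
  yb := h.yb hK
  sq a ha := h.el_sq hK t a (by omega)
  cm a v hv hr := h.cm_all hK t a v hv hr

end Tp

end TCH
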