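import Pool.Agent.TCH.Maps

/-!
# Statements about all triples, and certificates
-/

set_option autoImplicit false

namespace TCH

open TCW Tp

variable {G : Type*} [Group G]

/-- the word has order dividing `o` for all triples -/
def Un (K : Set G) (w : List ℕ) (o : ℕ) : Prop :=
  ∀ x y z : G, Tp K x y z → evw (el x y z) w ^ o = 1

/-- one operation on words -/
def stepOp (op : ℕ) (w : List ℕ) : List ℕ :=
  match op with
  | 0 => w.flatMap rotL
  | 1 => w.reverse
  | 2 => match w with
    | [] => []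
    | a :: l => l ++ [a]
  | 3 => 2 :: (w ++ [2])
  | 4 => 3 :: (w ++ [3])
  | 5 => w.flatMap phiL
  | 6 => w.flatMap abL
  | 7 => w.flatMap ayL
  | 8 => w.flatMap teL
  | 9 => w.flatMap tfL
  | _ => w

/-- admissible operation -/
def okOp (op : ℕ) (w : List ℕ) : Bool :=
  match op with
  | 1 => w.all fun a => Nat.ble 2 a
  | 8 => w.all fun a => Nat.ble a 6
  | 9 => w.all fun a => Nat.ble a 6
  | _ => true

/-- the target is obtained from the word by the operations -/
def chk : List ℕ → List ℕ → List ℕ → Bool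
  | [], w, T => same w T
  | op :: ops, w, T => okOp op w && chk ops (stepOp op w) T

lemma evw_reverse {ev : ℕ → G} (L : List ℕ) (h : ∀ a ∈ L, ev a * ev a = 1) :
    evw ev L.reverse = (evw ev L)⁻¹ := by
  induction L with
  | nil => simp [evw]
  | cons a L ih =>
    rw [List.reverse_cons, evw_append, evw_cons, evw_cons, evw_nil, mul_one, mul_inv_rev,
      ih (fun b hb => h b (by simp [hb])), inv_of_sq (h a (by simp))]

variable {K : Set G} {x y z : G}

/-- the local operations, for a fixed triple -/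
lemma loc_op (hK : Cx K) (h : Tp K x y z) (t : Ty x y z) {op o : ℕ} {w : List ℕ} (hop : op < 5)
    (hok : okOp op w = true) (hw : evw (el x y z) w ^ o = 1) :
    evw (el x y z) (stepOp op w) ^ o = 1 := by
  interval_cases op
  · change evw (el x y z) (w.flatMap rotL) ^ o = 1
    rw [h.rot_spec hK]; exact pow_cj hw
  · change evw (el x y z) w.reverse ^ o = 1
    rw [evw_reverse, inv_pow, hw, inv_one]
    intro a ha
    exact h.el_sq hK t a (Nat.ble_eq.mp (List.all_eq_true.mp hok a ha))
  · rcases w with _ | ⟨a, l⟩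
    · exact hw
    · change evw (el x y z) (l ++ [a]) ^ o = 1
      have e : evw (el x y z) (l ++ [a]) =
          (el x y z a)⁻¹ * evw (el x y z) (a :: l) * el x y z a := by
        rw [evw_append, evw_cons, evw_cons, evw_nil]; group
      rw [e]; exact pow_cj hw
  · change evw (el x y z) (2 :: (w ++ [2])) ^ o = 1
    have e : evw (el x y z) (2 :: (w ++ [2])) = y⁻¹ * evw (el x y z) w * y := by
      rw [evw_cons, evw_append, evw_cons, evw_nil, inv_of_sq (h.yy hK)]
      simp only [el, mul_one]; group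
    rw [e]; exact pow_cj hw
  · change evw (el x y z) (3 :: (w ++ [3])) ^ o = 1
    have e : evw (el x y z) (3 :: (w ++ [3])) = (lb x y)⁻¹ * evw (el x y z) w * lb x y := by
      rw [evw_cons, evw_append, evw_cons, evw_nil, inv_of_sq (h.bb hK)]
      simp only [el, mul_one]; group
    rw [e]; exact pow_cj hw

lemma loc_chk (hK : Cx K) (h : Tp K x y z) (t : Ty x y z) {o : ℕ} (ops : List ℕ) :
    ∀ (w T : List ℕ), ops.all (fun a => Nat.blt a 5) = true → chk ops w T = true →
      evw (el x y z) w ^ o = 1 → evw (el x y z) T ^ o = 1 := by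
  induction ops with
  | nil =>
    intro w T _ hc hw
    rw [← same_spec (h.st hK t) hc]; exact hw
  | cons op ops ih =>
    intro w T hl hc hw
    rw [List.all_cons, Bool.and_eq_true] at hl
    rw [chk, Bool.and_eq_true] at hc
    exact ih _ _ hl.2 hc.2 (loc_op hK h t (Nat.ble_eq.mp hl.1) hc.1 hw)

lemma un_op (hK : Cx K) (hT : ∀ x y z : G, Tp K x y z → Ty x y z) {op o : ℕ} {w : List ℕ}
    (hok : okOp op w = true) (hw : Un K w o) : Un K (stepOp op w) o := by
  intro x y z h
  have t := hT x y z h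
  rcases Nat.lt_or_ge op 5 with h5 | h5
  · exact loc_op hK h t h5 hok (hw x y z h)
  rcases Nat.lt_or_ge op 10 with h10 | h10
  · interval_cases op
    · change evw (el x y z) (w.flatMap phiL) ^ o = 1
      rw [evw_flatMap (h.phi_el hK t)]; exact hw _ _ _ (h.phi hK)
    · change evw (el x y z) (w.flatMap abL) ^ o = 1
      rw [evw_flatMap (h.ab_el hK t)]; exact hw _ _ _ (h.ab hK)
    · change evw (el x y z) (w.flatMap ayL) ^ o = 1
      rw [evw_flatMap (h.ay_el hK t)]; exact hw _ _ _ (h.ay hK)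
    · change evw (el x y z) (w.flatMap teL) ^ o = 1
      rw [evw_mono (te_el x y z) w (fun a ha => Nat.ble_eq.mp (List.all_eq_true.mp hok a ha))]
      exact hw _ _ _ (h.te hK t)
    · change evw (el x y z) (w.flatMap tfL) ^ o = 1
      rw [evw_mono h.tf_el w (fun a ha => Nat.ble_eq.mp (List.all_eq_true.mp hok a ha))]
      exact hw _ _ _ (h.tf hK t)
  · obtain ⟨k, rfl⟩ : ∃ k, op = k + 10 := ⟨op - 10, by omega⟩
    exact hw x y z h

lemma un_chk (hK : Cx K) (hT : ∀ x y z : G, Tp K x y z → Ty x y z) {o : ℕ} (ops : List ℕ) :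
    ∀ (w T : List ℕ), chk ops w T = true → Un K w o → Un K T o := by
  induction ops with
  | nil =>
    intro w T hc hw x y z h
    rw [← same_spec (h.st hK (hT x y z h)) hc]; exact hw x y z h
  | cons op ops ih =>
    intro w T hc hw
    rw [chk, Bool.and_eq_true] at hc
    exact ih _ _ hc.2 (un_op hK hT hc.1 hw)

/-- one relator is derived from a fact (`d.1` even) or from an assumption (`d.1` odd) -/
def specOK (Γ lits : List (List ℕ × ℕ)) (d : ℕ × List ℕ) (T : List ℕ) (k : ℕ) : Bool :=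
  let s := if d.1 % 2 = 0 then Γ.getD (d.1 / 2) ([31], 1) else lits.getD (d.1 / 2) ([31], 1)
  Nat.beq s.2 k && chk d.2 s.1 T && (Nat.beq (d.1 % 2) 0 || d.2.all fun a => Nat.blt a 5)

/-- all relators are derived -/
def allOK (Γ lits : List (List ℕ × ℕ)) : List (ℕ × List ℕ) → List (ℕ × ℕ) → Bool
  | [], [] => true
  | d :: ds, s :: ss => specOK Γ lits d (wd 64 s.1) s.2 && allOK Γ lits ds ss
  | _, _ => false

lemma getD_hold {Γ : List (List ℕ × ℕ)} {P : List ℕ → ℕ → Prop} (h : ∀ p ∈ Γ, P p.1 p.2)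
    (h0 : P [31] 1) (i : ℕ) : P (Γ.getD i ([31], 1)).1 (Γ.getD i ([31], 1)).2 := by
  rcases Nat.lt_or_ge i Γ.length with hi | hi
  · rw [List.getD_eq_getElem _ _ hi]; exact h _ (List.getElem_mem hi)
  · rw [List.getD_eq_default _ _ hi]; exact h0

lemma specOK_spec (hK : Cx K) (hT : ∀ x y z : G, Tp K x y z → Ty x y z)
    {Γ lits : List (List ℕ × ℕ)} (hΓ : ∀ p ∈ Γ, Un K p.1 p.2) (h : Tp K x y z)
    (hl : ∀ p ∈ lits, evw (el x y z) p.1 ^ p.2 = 1) {d : ℕ × List ℕ} {T : List ℕ} {k : ℕ}
    (hs : specOK Γ lits d T k = true) : evw (el x y z) T ^ k = 1 := by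
  have t := hT x y z h
  rw [specOK] at hs
  simp only [Bool.and_eq_true, Bool.or_eq_true] at hs
  obtain ⟨⟨h1, h2⟩, h3⟩ := hs
  have h1 := Nat.eq_of_beq_eq_true h1
  have hone : evw (el x y z) [31] ^ 1 = 1 := by simp [evw, el]
  by_cases hd : d.1 % 2 = 0
  · rw [if_pos hd] at h1 h2
    rw [← h1]
    exact un_chk hK hT _ _ _ h2 (getD_hold (P := Un K) hΓ (fun x y z _ => by simp [evw, el]) _) x y z h
  · rw [if_neg hd] at h1 h2
    rw [← h1]
    rcases h3 with h3 | h3
    · exact absurd (Nat.eq_of_beq_eq_true h3) hd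
    · exact loc_chk hK h t _ _ _ h3 h2
        (getD_hold (P := fun w o => evw (el x y z) w ^ o = 1) hl hone _)

lemma allOK_spec (hK : Cx K) (hT : ∀ x y z : G, Tp K x y z → Ty x y z)
    {Γ lits : List (List ℕ × ℕ)} (hΓ : ∀ p ∈ Γ, Un K p.1 p.2) (h : Tp K x y z)
    (hl : ∀ p ∈ lits, evw (el x y z) p.1 ^ p.2 = 1) : ∀ (ds : List (ℕ × List ℕ)) (ss : List (ℕ × ℕ)),
    allOK Γ lits ds ss = true → ∀ p ∈ ss, evw (el x y z) (wd 64 p.1) ^ p.2 = 1 := by
  intro ds
  induction ds with
  | nil =>
    intro ss hs p hp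
    rcases ss with _ | ⟨s, ss⟩
    · simp at hp
    · exact absurd hs (by simp [allOK])
  | cons d ds ih =>
    intro ss hs p hp
    rcases ss with _ | ⟨s, ss⟩
    · simp at hp
    · rw [allOK, Bool.and_eq_true] at hs
      rcases List.mem_cons.1 hp with rfl | hp
      · exact specOK_spec hK hT hΓ h hl hs.1
      · exact ih ss hs.2 p hp

/-- the letters of `H = ⟨x, y, b, n, p, q⟩` -/
def subL : List ℕ := [0, 1, 2, 3, 13, 14, 15]

lemma sub_mem (hK : Cx K) (h : Tp K x y z) (t : Ty x y z) (a : ℕ) (ha : a ∈ subL) :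
    el x y z a ∈ Subgroup.normalizer ((h.fr hK).V : Set G) := by
  have hf := h.fr hK
  have hx := hf.x_norm
  have hn : ln x y z ∈ Subgroup.normalizer (hf.V : Set G) := by
    have hi := inv_of_sq (h.nn hK t)
    have hcom : ∀ v ∈ hf.V, ln x y z * v = v * ln x y z := by
      intro v hv
      rcases hf.mem_V.mp hv with rfl | rfl | rfl | rfl
      · group
      · exact h.hny hK t
      · exact h.hnb hK t
      · rw [← h.c_eq hK]; exact h.hnc hK t
    apply hf.norm_of
    · intro v hv
      have e : ln x y z * v * (ln x y z)⁻¹ = v := by rw [hcom v hv]; group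
      simpa only [e] using hv
    · intro v hv
      have e : (ln x y z)⁻¹ * v * ln x y z = v := by
        calc (ln x y z)⁻¹ * v * ln x y z = (ln x y z)⁻¹ * (v * ln x y z) := by group
          _ = v := by rw [← hcom v hv]; group
      simpa only [e] using hv
  have hcases : a = 0 ∨ a = 1 ∨ a = 2 ∨ a = 3 ∨ a = 13 ∨ a = 14 ∨ a = 15 := by
    simpa [subL] using ha
  rcases hcases with rfl | rfl | rfl | rfl | rfl | rfl | rfl
  · exact hx
  · exact inv_mem hx
  · exact hf.V_norm hf.y_mem
  · exact hf.V_norm hf.b_mem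
  · exact hn
  · exact mul_mem (mul_mem (inv_mem hx) hn) hx
  · exact mul_mem (mul_mem hx hn) (inv_mem hx)

/-- a certificate: the assumptions are contradictory -/
theorem cert (hK : Cx K) (hT : ∀ x y z : G, Tp K x y z → Ty x y z)
    {Γ : List (List ℕ × ℕ)} (lits : List (List ℕ × ℕ)) (hΓ : ∀ p ∈ Γ, Un K p.1 p.2)
    {ds : List (ℕ × List ℕ)} {ss : List (ℕ × ℕ)} {d : ℕ} {subs : List ℕ} {prog : List (List ℕ)}
    (h1 : allOK Γ lits ds ss = true) (h2 : subs.all (fun a => subL.contains a) = true)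
    (h3 : checkW d subs ss prog [5] = true) :
    ∀ x y z : G, Tp K x y z → ¬ ∀ p ∈ lits, evw (el x y z) p.1 ^ p.2 = 1 := by
  intro x y z h hl
  have t := hT x y z h
  have hz := members (h.lt hK t) (Subgroup.normalizer ((h.fr hK).V : Set G)) (subs := subs)
    (by
      intro a ha
      have h4 := List.all_eq_true.mp h2 a ha
      have h5 : a ∈ subL := by simpa using h4
      refine ⟨?_, sub_mem hK h t a h5⟩
      have : a = 0 ∨ a = 1 ∨ a = 2 ∨ a = 3 ∨ a = 13 ∨ a = 14 ∨ a = 15 := by simpa [subL] using h5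
      omega)
    (allOK_spec hK hT hΓ h hl ds ss h1) h3 5 (by simp)
  have e : evw (el x y z) (wd 256 5) = z := by
    have : wd 256 5 = [4] := by decide +kernel
    rw [this]; simp [evw, el]
  rw [e] at hz
  exact h.ne ((h.fr hK).eq_of_norm (h.zz hK) h.hyz hz)

end TCH
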